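import Pool.Agent.Helper405.ConvI

set_option autoImplicit false
open Complex Set Metric MeasureTheory Measure

namespace Pool.Agent.Results.MP_a0a602_an.NotWaniurski

/-- The class `S^c`: functions analytic and univalent in the unit disc, with convex image and
`f 0 = 0`, `f' 0 = 1`. -/
def ConvexClass (f : ℂ → ℂ) : Prop :=
  DifferentiableOn ℂ f (ball 0 1) ∧ InjOn f (ball 0 1) ∧ Convex ℝ (f '' ball 0 1) ∧
    f 0 = 0 ∧ deriv f 0 = 1

/-- `L(f, r)`: linear measure (one dimensional Hausdorff measure) of the part of the circle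
`|w| = r` lying in the unit disc and omitted by `f`. -/
noncomputable def omittedLength (f : ℂ → ℂ) (r : ℝ) : ENNReal :=
  μH[1] ((ball (0 : ℂ) 1 \ f '' ball 0 1) ∩ {w : ℂ | ‖w‖ = r})

/-- `L^c(r)`: the supremum of `L(f, r)` over the class. -/
noncomputable def supOmittedLength (r : ℝ) : ENNReal :=
  ⨆ (f : ℂ → ℂ) (_ : ConvexClass f), omittedLength f r

/-- `Ω` is an extremal domain for `L^c(r)`. -/
def IsExtremalDomain (r : ℝ) (Ω : Set ℂ) : Prop :=
  ∃ f : ℂ → ℂ, ConvexClass f ∧ omittedLength f r = supOmittedLength r ∧ Ω = f '' ball 0 1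

/-- Type (i): a half-plane. -/
def IsHalfPlane (Ω : Set ℂ) : Prop :=
  ∃ (u : ℂ) (d : ℝ), ‖u‖ = 1 ∧ Ω = {w | (w * (starRingEnd ℂ) u).re < d}

/-- Type (ii): a sector with vertex `p`, axis direction `exp (i θ₀)` and half opening angle `α`,
whose bisecting line passes through the origin. -/
def IsSymmetricSector (Ω : Set ℂ) : Prop :=
  ∃ (p : ℂ) (θ₀ α : ℝ), 0 < α ∧ α ≤ Real.pi / 2 ∧ (∃ t : ℝ, p + t * exp (θ₀ * I) = 0) ∧
    Ω = {w | ∃ ρ θ : ℝ, 0 < ρ ∧ |θ - θ₀| < α ∧ w = p + ρ * exp (θ * I)}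

/-- Type (iii): an open convex set whose boundary contains a nondegenerate arc of the circle
`|w| = r` and consists of this arc and of parts of the two lines tangent to the circle at the
endpoints of the arc. -/
def IsArcWithTangents (r : ℝ) (Ω : Set ℂ) : Prop :=
  IsOpen Ω ∧ Convex ℝ Ω ∧ ∃ θ₀ lam : ℝ, 0 < lam ∧ lam ≤ Real.pi ∧
    {w | ∃ φ : ℝ, |φ - θ₀| ≤ lam ∧ w = r * exp (φ * I)} ⊆ frontier Ω ∧
    frontier Ω ⊆ {w | ∃ φ : ℝ, |φ - θ₀| ≤ lam ∧ w = r * exp (φ * I)} ∪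
      {w | (w * exp (-((θ₀ + lam : ℝ) * I))).re = r} ∪ {w | (w * exp (-((θ₀ - lam : ℝ) * I))).re = r}

/-- For `r = 3/4` there is an extremal domain for `L^c(r)`, and no extremal domain is a half-plane,
a symmetric sector or an arc with tangents. -/
theorem result :
    (∃ Ω : Set ℂ, IsExtremalDomain (3 / 4) Ω) ∧
      ∀ Ω : Set ℂ, IsExtremalDomain (3 / 4) Ω →
        ¬ IsHalfPlane Ω ∧ ¬ IsSymmetricSector Ω ∧ ¬ IsArcWithTangents (3 / 4) Ω := by
  constructor
  · obtain ⟨f, hf, hmax⟩ := Pool.Agent.Helper405.Conv.exists_extremal (r := 3 / 4) (by norm_num)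
    refine ⟨f '' ball 0 1, f, hf, ?_, rfl⟩
    apply le_antisymm
    · exact le_iSup₂_of_le (f := fun (g : ℂ → ℂ) (_ : ConvexClass g) => omittedLength g (3 / 4)) f hf le_rfl
    · exact iSup₂_le fun g hg => hmax g hg
  · rintro Ω ⟨f, hf, hext, rfl⟩
    obtain ⟨g, hg, hlt⟩ := Pool.Agent.Helper405.Conv.exists_better
    have h1 : omittedLength g (3 / 4) ≤ supOmittedLength (3 / 4) :=
      le_iSup₂_of_le (f := fun (g : ℂ → ℂ) (_ : ConvexClass g) => omittedLength g (3 / 4)) g hg le_rfl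
    have h2 : ENNReal.ofReal (Real.pi / 2) < omittedLength f (3 / 4) := by
      rw [hext]; exact lt_of_lt_of_le hlt h1
    refine ⟨fun h => ?_, fun h => ?_, fun h => ?_⟩
    · exact absurd (Pool.Agent.Helper405.Conv.bound_half hf h) (not_le.2 h2)
    · exact absurd (Pool.Agent.Helper405.Conv.bound_sector hf h) (not_le.2 h2)
    · exact absurd (Pool.Agent.Helper405.Conv.bound_arc hf h) (not_le.2 h2)

end Pool.Agent.Results.MP_a0a602_an.NotWaniurski
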