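import Mathlib
import Pool.Agent.Helper202.Riemann
import Pool.Agent.Helper202.Univ

/-!
# MP_a0a602_an: extremal convex domains for the omitted area

For every `r` in `[99/100, 1)` the supremum `A^c(r)` is attained, and no extremal domain is a
half-plane, a symmetric sector, or a domain bounded by an arc of `|w| = r` and the two tangent
lines.  So the conjecture that the extremal domains are always of these types is false.

* Existence (`exists_extremal`): normal families, Study's lemma for convexity of the limit,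
  quantitative open mapping for the kernel property.
* Half-planes (`not_half_plane`): the sector of half-angle `3π/8` omits more area than the
  half-plane as soon as `r ≥ 0.95` (`half_plane_lt`).
* Sectors with vertex inside `Δ_r` (`sector_inside`): cutting off the corner at height `δ` gains
  area of order `δ ^ 2`, but the conformal radius drops only by `O(δ ^ (2/β))` with `β < 1`; the
  latter is seen from an explicit holomorphic map into the truncated sector, the Riemann mapping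
  theorem and the Schwarz lemma.
* Sectors with vertex outside `Δ_r` (`sector_outside`) omit at most two caps at distance
  `r / √2`, less than a half-plane (`two_caps`).
* Type (iii) domains omit area zero (`not_arcTangent`).
-/

set_option autoImplicit false

namespace Pool.Agent.Results.MP_a0a602_an.OmittedArea

open Set Filter Metric Topology MeasureTheory Complex

/-- The class `S^c`: analytic univalent functions `f` in the unit disc with `f 0 = 0`,
`f' 0 = 1` and convex image. -/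
def Sc : Set (ℂ → ℂ) :=
  {f | DifferentiableOn ℂ f (ball 0 1) ∧ InjOn f (ball 0 1) ∧ f 0 = 0 ∧ deriv f 0 = 1 ∧
    Convex ℝ (f '' ball 0 1)}

/-- The omitted area `A(f, r)`: planar Lebesgue measure of `Δ_r \ f(Δ)`. -/
noncomputable def omittedArea (f : ℂ → ℂ) (r : ℝ) : ENNReal :=
  volume (ball (0 : ℂ) r \ f '' ball 0 1)

/-- `A^c(r)`. -/
noncomputable def Ac (r : ℝ) : ENNReal := ⨆ f ∈ Sc, omittedArea f r

/-- `D` is an extremal domain for `A^c(r)`. -/
def IsExtremalDomainA (r : ℝ) (D : Set ℂ) : Prop :=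
  ∃ f ∈ Sc, D = f '' ball 0 1 ∧ omittedArea f r = Ac r

/-- (i) half-planes. -/
def IsHalfPlane (D : Set ℂ) : Prop :=
  ∃ u : ℂ, ‖u‖ = 1 ∧ ∃ c : ℝ, D = {w : ℂ | c < (u * w).re}

/-- (ii) sectors (of half-angle `arctan m`, `m > 0`) whose bisecting line passes through the
origin; after the rotation by `u` the bisecting line is the real axis and the vertex is `x`. -/
def IsSymmetricSector (D : Set ℂ) : Prop :=
  ∃ u : ℂ, ‖u‖ = 1 ∧ ∃ x m : ℝ, 0 < m ∧ D = {w : ℂ | |(u * w).im| < m * ((u * w).re - x)}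

/-- The line tangent to the circle `|w| = r` at its point `b`. -/
def TangentLine (r : ℝ) (b : ℂ) : Set ℂ := {w : ℂ | ((starRingEnd ℂ) b * w).re = r ^ 2}

/-- Convex domains whose boundary is contained in the union of the circle `|w| = r` and of the
tangent lines at two of its points.  Every domain of type (iii) is of this kind. -/
def IsArcTangentDomain (r : ℝ) (D : Set ℂ) : Prop :=
  IsOpen D ∧ Convex ℝ D ∧ ∃ a b : ℂ, ‖a‖ = r ∧ ‖b‖ = r ∧
    frontier D ⊆ sphere 0 r ∪ TangentLine r a ∪ TangentLine r b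

/-! ### Basic facts -/

section basic

variable {f : ℂ → ℂ}

/-- the inverse of `f` -/
noncomputable def inv (f : ℂ → ℂ) : ℂ → ℂ := Function.invFunOn f (ball 0 1)

lemma Sc_open (hf : f ∈ Sc) : IsOpen (f '' ball 0 1) :=
  Pool.Agent.Helper202.Univ.isOpen_image isOpen_ball hf.1 hf.2.1 isOpen_ball subset_rfl

lemma Sc_zero_mem (hf : f ∈ Sc) : (0 : ℂ) ∈ f '' ball 0 1 :=
  ⟨0, mem_ball_self one_pos, hf.2.2.1⟩

lemma inv_maps (f : ℂ → ℂ) : MapsTo (inv f) (f '' ball 0 1) (ball 0 1) := fun _ hw =>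
  Pool.Agent.Helper202.Univ.invFunOn_mem hw

lemma inv_right {w : ℂ} (hw : w ∈ f '' ball 0 1) : f (inv f w) = w :=
  Pool.Agent.Helper202.Univ.invFunOn_right hw

lemma inv_left (hf : f ∈ Sc) {z : ℂ} (hz : z ∈ ball (0 : ℂ) 1) : inv f (f z) = z :=
  Pool.Agent.Helper202.Univ.invFunOn_left hf.2.1 hz

lemma inv_diff (hf : f ∈ Sc) : DifferentiableOn ℂ (inv f) (f '' ball 0 1) := fun _ hw =>
  (Pool.Agent.Helper202.Univ.differentiableAt_inv isOpen_ball hf.1 hf.2.1 hw).differentiableWithinAt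

lemma inv_zero (hf : f ∈ Sc) : inv f 0 = 0 := by
  have := inv_left hf (mem_ball_self one_pos)
  rwa [hf.2.2.1] at this

lemma inv_deriv (hf : f ∈ Sc) : HasDerivAt (inv f) 1 0 := by
  have h := Pool.Agent.Helper202.Univ.hasDerivAt_inv isOpen_ball hf.1 hf.2.1
    (mem_ball_self (x := (0 : ℂ)) one_pos)
  rw [hf.2.2.2.1, inv_one, hf.2.2.1] at h
  exact h

lemma f_deriv (hf : f ∈ Sc) : HasDerivAt f 1 0 := by
  have := (hf.1.differentiableAt (isOpen_ball.mem_nhds (mem_ball_self (x := (0 : ℂ)) one_pos))).hasDerivAt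
  rwa [hf.2.2.2.1] at this

/-- Schwarz lemma for maps of the disc into `f(Δ)`. -/
lemma schwarz_from (hf : f ∈ Sc) {h : ℂ → ℂ} (hd : DifferentiableOn ℂ h (ball 0 1))
    (hm : MapsTo h (ball 0 1) (f '' ball 0 1)) (h0 : h 0 = 0) :
    ‖deriv h 0‖ ≤ 1 ∧ ∀ z ∈ ball (0 : ℂ) 1, ‖inv f (h z)‖ ≤ ‖z‖ := by
  have hk : DifferentiableOn ℂ (fun z => inv f (h z)) (ball 0 1) := (inv_diff hf).comp hd hm
  have hkm : MapsTo (fun z => inv f (h z)) (ball 0 1) (ball 0 1) := (inv_maps f).comp hm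
  have hk0 : inv f (h 0) = 0 := by rw [h0, inv_zero hf]
  refine ⟨?_, ?_⟩
  · have h1 := Complex.norm_deriv_le_one_of_mapsTo_ball hk (R := 1) (c := 0)
      (by simp only [hk0]; exact fun z hz => ball_subset_closedBall (hkm hz)) one_pos
    have hh : HasDerivAt h (deriv h 0) 0 :=
      (hd.differentiableAt (isOpen_ball.mem_nhds (mem_ball_self one_pos))).hasDerivAt
    have h2 : HasDerivAt (fun z => inv f (h z)) (1 * deriv h 0) 0 := by
      have := inv_deriv hf
      rw [← h0] at this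
      exact HasDerivAt.comp (0 : ℂ) this hh
    rw [h2.deriv, one_mul] at h1
    exact h1
  · intro z hz
    exact Complex.norm_le_norm_of_mapsTo_ball hk (fun z hz => ball_subset_closedBall (hkm hz)) hk0
      (by simpa using hz)

/-- Schwarz lemma for maps of `f(Δ)` into the disc. -/
lemma schwarz_into (hf : f ∈ Sc) {G : ℂ → ℂ} (hd : DifferentiableOn ℂ G (f '' ball 0 1))
    (hm : MapsTo G (f '' ball 0 1) (ball 0 1)) (h0 : G 0 = 0) : ‖deriv G 0‖ ≤ 1 := by
  have hk : DifferentiableOn ℂ (fun z => G (f z)) (ball 0 1) := hd.comp hf.1 (mapsTo_image f _)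
  have hkm : MapsTo (fun z => G (f z)) (ball 0 1) (ball 0 1) := hm.comp (mapsTo_image f _)
  have hk0 : G (f 0) = 0 := by rw [hf.2.2.1, h0]
  have h1 := Complex.norm_deriv_le_one_of_mapsTo_ball hk (R := 1) (c := 0)
    (by simp only [hk0]; exact fun z hz => ball_subset_closedBall (hkm hz)) one_pos
  have hG : HasDerivAt G (deriv G 0) (f 0) := by
    rw [hf.2.2.1]
    exact (hd.differentiableAt ((Sc_open hf).mem_nhds (Sc_zero_mem hf))).hasDerivAt
  have h2 : HasDerivAt (fun z => G (f z)) (deriv G 0 * 1) 0 := HasDerivAt.comp (0 : ℂ) hG (f_deriv hf)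
  rw [h2.deriv, mul_one] at h1
  exact h1

lemma exists_notMem (hf : f ∈ Sc) : ∃ b, b ∉ f '' ball 0 1 ∧ ‖b‖ < 2 := by
  by_contra hcon
  push Not at hcon
  have hm : MapsTo (fun z : ℂ => 2 * z) (ball 0 1) (f '' ball 0 1) := by
    intro z hz
    by_contra h
    have h1 := hcon _ h
    rw [norm_mul] at h1
    have h2 : ‖(2 : ℂ)‖ = 2 := by simp
    rw [h2] at h1
    rw [mem_ball_zero_iff] at hz
    linarith
  have h := (schwarz_from hf (h := fun z => 2 * z) (by fun_prop) hm (by simp)).1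
  have h3 : deriv (fun z : ℂ => 2 * z) 0 = 2 := by
    have : HasDerivAt (fun z : ℂ => 2 * z) (2 * 1) 0 := (hasDerivAt_id (0 : ℂ)).const_mul 2
    rw [this.deriv, mul_one]
  rw [h3] at h
  norm_num at h

/-- growth bound -/
lemma growth (hf : f ∈ Sc) {z : ℂ} (hz : z ∈ ball (0 : ℂ) 1) : ‖f z‖ ≤ 4 * ‖z‖ / (1 - ‖z‖) := by
  obtain ⟨b, hb, hb2⟩ := exists_notMem hf
  obtain ⟨l, hl⟩ := geometric_hahn_banach_open_point hf.2.2.2.2 (Sc_open hf) hb
  set c : ℂ := (l 1 : ℂ) - (l I : ℂ) * I with hc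
  have hlc : ∀ w : ℂ, l w = (c * w).re := by
    intro w
    have e : w = w.re • (1 : ℂ) + w.im • I := by
      simp [Complex.re_add_im]
    conv_lhs => rw [e]
    rw [map_add, map_smul, map_smul, hc, smul_eq_mul, smul_eq_mul]
    simp [Complex.sub_re, Complex.sub_im, Complex.mul_re, Complex.mul_im]
    ring
  have hc0 : c ≠ 0 := by
    intro h
    have h1 := hl 0 (Sc_zero_mem hf)
    rw [hlc, hlc, h] at h1
    simp at h1
  have hcn : 0 < ‖c‖ := norm_pos_iff.mpr hc0
  have hm : MapsTo (fun z => (c / ‖c‖) * f z) (ball 0 1) {w : ℂ | w.re ≤ 2} := by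
    intro y hy
    have h1 := hl (f y) (mem_image_of_mem f hy)
    rw [hlc, hlc] at h1
    have h2 : (c * b).re ≤ ‖c‖ * 2 := by
      calc (c * b).re ≤ ‖c * b‖ := Complex.re_le_norm _
        _ = ‖c‖ * ‖b‖ := norm_mul _ _
        _ ≤ ‖c‖ * 2 := by gcongr
    have h3 : ((c / ‖c‖) * f y).re = (c * f y).re / ‖c‖ := by
      have : (c / ‖c‖) * f y = (c * f y) / (‖c‖ : ℂ) := by ring
      rw [this, Complex.div_ofReal_re]
    show ((c / ‖c‖) * f y).re ≤ 2
    rw [h3, div_le_iff₀ hcn]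
    linarith
  have h := Complex.borelCaratheodory_zero (M := 2) (R := 1) (by norm_num)
    (f := fun z => (c / ‖c‖) * f z) (hf.1.const_mul _) hm one_pos hz (by simp [hf.2.2.1])
  have h2 : ‖(c / ‖c‖) * f z‖ = ‖f z‖ := by
    rw [norm_mul, norm_div, Complex.norm_real, norm_norm, div_self hcn.ne', one_mul]
  rw [h2] at h
  calc ‖f z‖ ≤ 2 * 2 * ‖z‖ / (1 - ‖z‖) := h
    _ = 4 * ‖z‖ / (1 - ‖z‖) := by ring

/-- Study's lemma -/
lemma study (hf : f ∈ Sc) {z₁ z₂ : ℂ} {t a b : ℝ} (h1 : ‖z₁‖ ≤ t) (h2 : ‖z₂‖ ≤ t) (ht : t < 1)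
    (ha : 0 ≤ a) (hb : 0 ≤ b) (hab : a + b = 1) :
    ∃ ζ : ℂ, ‖ζ‖ ≤ t ∧ f ζ = a • f z₁ + b • f z₂ := by
  have ht0 : 0 ≤ t := le_trans (norm_nonneg _) h1
  rcases ht0.eq_or_lt with h0 | h0
  · have e1 : z₁ = 0 := norm_le_zero_iff.mp (by rw [h0]; exact h1)
    have e2 : z₂ = 0 := norm_le_zero_iff.mp (by rw [h0]; exact h2)
    refine ⟨0, by rw [norm_zero]; exact ht0, ?_⟩
    rw [e1, e2, hf.2.2.1]; simp
  · have key : ∀ y : ℂ, ‖y‖ ≤ t → ∀ z ∈ ball (0 : ℂ) 1, z * (y / t) ∈ ball (0 : ℂ) 1 := by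
      intro y hy z hz
      rw [mem_ball_zero_iff] at hz ⊢
      rw [norm_mul, norm_div, Complex.norm_real, Real.norm_of_nonneg ht0]
      have : ‖y‖ / t ≤ 1 := div_le_one_of_le₀ hy ht0
      calc ‖z‖ * (‖y‖ / t) ≤ ‖z‖ * 1 := mul_le_mul_of_nonneg_left this (norm_nonneg _)
        _ < 1 := by linarith
    have hd : ∀ y : ℂ, ‖y‖ ≤ t → DifferentiableOn ℂ (fun z => f (z * (y / t))) (ball 0 1) := by
      intro y hy
      exact hf.1.comp (by fun_prop) (key y hy)
    have hk := schwarz_from hf (h := fun z => a • f (z * (z₁ / t)) + b • f (z * (z₂ / t)))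
      (((hd z₁ h1).const_smul a).add ((hd z₂ h2).const_smul b)) (by
        intro z hz
        exact hf.2.2.2.2 (mem_image_of_mem f (key _ h1 z hz)) (mem_image_of_mem f (key _ h2 z hz)) ha hb hab)
      (by simp [hf.2.2.1])
    have htb : ((t : ℝ) : ℂ) ∈ ball (0 : ℂ) 1 := by
      rw [mem_ball_zero_iff, Complex.norm_real, Real.norm_of_nonneg ht0]; exact ht
    have h3 := hk.2 t htb
    rw [Complex.norm_real, Real.norm_of_nonneg ht0] at h3
    have htc : (t : ℂ) ≠ 0 := by exact_mod_cast h0.ne'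
    have e1 : (t : ℂ) * (z₁ / t) = z₁ := by field_simp
    have e2 : (t : ℂ) * (z₂ / t) = z₂ := by field_simp
    simp only [e1, e2] at h3
    refine ⟨_, h3, inv_right ?_⟩
    have hz1 : z₁ ∈ ball (0 : ℂ) 1 := by rw [mem_ball_zero_iff]; linarith
    have hz2 : z₂ ∈ ball (0 : ℂ) 1 := by rw [mem_ball_zero_iff]; linarith
    exact hf.2.2.2.2 (mem_image_of_mem f hz1) (mem_image_of_mem f hz2) ha hb hab

end basic

/-! ### Compactness -/

lemma tlu_glue {l : Filter ℕ} {F : ℕ → ℂ → ℂ} {f : ℂ → ℂ}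
    (h : ∀ s : ℝ, 0 < s → s < 1 → TendstoLocallyUniformlyOn F f l (ball 0 s)) :
    TendstoLocallyUniformlyOn F f l (ball 0 1) := by
  intro u hu x hx
  rw [mem_ball_zero_iff] at hx
  have hs1 : (1 + ‖x‖) / 2 < 1 := by linarith
  have hxs : x ∈ ball (0 : ℂ) ((1 + ‖x‖) / 2) := by rw [mem_ball_zero_iff]; linarith
  obtain ⟨t, ht, hev⟩ := h ((1 + ‖x‖) / 2) (by positivity) hs1 u hu x hxs
  rw [isOpen_ball.nhdsWithin_eq hxs] at ht
  exact ⟨t, mem_nhdsWithin_of_mem_nhds ht, hev⟩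

/-- Every sequence in `S^c` has a limit in `S^c` along the hyperfilter; every compact subset of
the limit domain is eventually contained in the domains. -/
lemma limit_Sc {F : ℕ → ℂ → ℂ} (hF : ∀ n, F n ∈ Sc) :
    ∃ f ∈ Sc, ∀ K ⊆ f '' ball 0 1, IsCompact K →
      ∀ᶠ n in (Filter.hyperfilter ℕ : Filter ℕ), K ⊆ F n '' ball 0 1 := by
  set l : Ultrafilter ℕ := Filter.hyperfilter ℕ with hl
  have hpt : ∀ z ∈ ball (0 : ℂ) 1, ∃ y : ℂ, Tendsto (fun n => F n z) l (𝓝 y) := by
    intro z hz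
    have hcomp : IsCompact (closedBall (0 : ℂ) (4 * ‖z‖ / (1 - ‖z‖))) := isCompact_closedBall _ _
    have hmem : (Ultrafilter.map (fun n => F n z) l : Filter ℂ) ≤
        𝓟 (closedBall (0 : ℂ) (4 * ‖z‖ / (1 - ‖z‖))) := by
      rw [le_principal_iff]
      show (fun n => F n z) ⁻¹' (closedBall (0 : ℂ) (4 * ‖z‖ / (1 - ‖z‖))) ∈ (l : Filter ℕ)
      apply Filter.univ_mem'
      intro n
      show F n z ∈ closedBall (0 : ℂ) (4 * ‖z‖ / (1 - ‖z‖))
      rw [mem_closedBall_zero_iff]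
      exact growth (hF n) hz
    obtain ⟨y, _, hy⟩ := hcomp.ultrafilter_le_nhds _ hmem
    exact ⟨y, hy⟩
  classical
  choose! f hf using hpt
  have hd : ∀ n, DifferentiableOn ℂ (F n) (ball 0 1) := fun n => (hF n).1
  have hb : ∀ s : ℝ, 0 < s → s < 1 → ∀ n, ∀ z ∈ ball (0 : ℂ) s, ‖F n z‖ ≤ 4 / (1 - s) := by
    intro s hs hs1 n z hz
    rw [mem_ball_zero_iff] at hz
    have hz1 : z ∈ ball (0 : ℂ) 1 := by rw [mem_ball_zero_iff]; linarith
    refine (growth (hF n) hz1).trans ?_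
    rw [div_le_div_iff₀ (by linarith) (by linarith)]
    have := norm_nonneg z
    nlinarith
  have htlu : TendstoLocallyUniformlyOn F f (l : Filter ℕ) (ball 0 1) := by
    apply tlu_glue
    intro s hs hs1
    exact Pool.Agent.Helper202.Riemann.tlu_of_pointwise isOpen_ball
      (fun n => (hd n).mono (ball_subset_ball hs1.le)) (hb s hs hs1)
      (fun z hz => hf z (ball_subset_ball hs1.le hz))
  have hfd : DifferentiableOn ℂ f (ball 0 1) :=
    htlu.differentiableOn (Eventually.of_forall hd) isOpen_ball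
  have hderlim : TendstoLocallyUniformlyOn (deriv ∘ F) (deriv f) (l : Filter ℕ) (ball 0 1) :=
    htlu.deriv (Eventually.of_forall hd) isOpen_ball
  have h0m : (0 : ℂ) ∈ ball (0 : ℂ) 1 := mem_ball_self one_pos
  have hf0 : f 0 = 0 := by
    have h1 := hf 0 h0m
    have h2 : (fun n => F n 0) = fun _ => (0 : ℂ) := by
      funext n; exact (hF n).2.2.1
    rw [h2] at h1
    exact (tendsto_nhds_unique tendsto_const_nhds h1).symm
  have hfd1 : deriv f 0 = 1 := by
    have h1 := hderlim.tendsto_at h0m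
    have h2 : (fun n => (deriv ∘ F) n 0) = fun _ => (1 : ℂ) := by
      funext n; exact (hF n).2.2.2.1
    rw [h2] at h1
    exact (tendsto_nhds_unique tendsto_const_nhds h1).symm
  have hana : AnalyticOnNhd ℂ f (ball 0 1) := hfd.analyticOnNhd isOpen_ball
  have hpre : IsPreconnected (ball (0 : ℂ) 1) := (convex_ball _ _).isPreconnected
  -- injective
  have hinj : InjOn f (ball 0 1) := by
    intro z hz w hw hzw
    by_contra hne
    have hV : IsOpen (ball (0 : ℂ) 1 \ {w}) := isOpen_ball.sdiff isClosed_singleton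
    have hzV : z ∈ ball (0 : ℂ) 1 \ {w} := ⟨hz, hne⟩
    have htlu' : TendstoLocallyUniformlyOn (fun n x => F n x - F n w) (fun x => f x - f w)
        (l : Filter ℕ) (ball (0 : ℂ) 1 \ {w}) := by
      have h1 : TendstoLocallyUniformlyOn (fun n x => F n x - F n w) (fun x => f x - f w)
          (l : Filter ℕ) (ball 0 1) := by
        apply tlu_glue
        intro s hs hs1
        apply Pool.Agent.Helper202.Riemann.tlu_of_pointwise (M := 4 / (1 - s) + 4 / (1 - ‖w‖)) isOpen_ball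
        · intro n
          exact ((hd n).mono (ball_subset_ball hs1.le)).sub_const _
        · intro n x hx
          have h1 := hb s hs hs1 n x hx
          have hw' : ‖w‖ < 1 := by rwa [mem_ball_zero_iff] at hw
          have h2 : ‖F n w‖ ≤ 4 / (1 - ‖w‖) := by
            refine (growth (hF n) hw).trans ?_
            apply div_le_div_of_nonneg_right _ (by linarith)
            linarith
          have h3 := norm_sub_le (F n x) (F n w)
          linarith
        · intro x hx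
          exact (hf x (ball_subset_ball hs1.le hx)).sub (hf w hw)
      exact h1.mono sdiff_subset
    have hev := Pool.Agent.Helper202.Riemann.hurwitz (l := (l : Filter ℕ)) hV
      (F := fun n x => F n x - F n w) (f := fun x => f x - f w)
      (fun n => ((hd n).mono sdiff_subset).sub_const _) htlu'
      (fun n x hx h0 => hx.2 ((hF n).2.1 hx.1 hw (by linear_combination h0))) hzV
      (by simp [hzw])
    have hana'' : AnalyticOnNhd ℂ (fun x => f x - f w) (ball 0 1) := hana.sub analyticOnNhd_const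
    have heq := hana''.eqOn_zero_of_preconnected_of_eventuallyEq_zero hpre hz hev
    have hc : f =ᶠ[𝓝 0] fun _ => f w := by
      filter_upwards [isOpen_ball.mem_nhds h0m] with x hx
      have := heq hx
      simp only [Pi.zero_apply] at this
      linear_combination this
    have : deriv f 0 = 0 := by rw [hc.deriv_eq]; simp
    rw [hfd1] at this
    exact one_ne_zero this
  -- convex image
  have hconv : Convex ℝ (f '' ball 0 1) := by
    rintro _ ⟨z₁, hz₁, rfl⟩ _ ⟨z₂, hz₂, rfl⟩ a b ha hb' hab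
    set t := max ‖z₁‖ ‖z₂‖ with ht
    have ht1 : t < 1 := by
      rw [mem_ball_zero_iff] at hz₁ hz₂
      exact max_lt hz₁ hz₂
    have hst := fun n => study (hF n) (le_max_left ‖z₁‖ ‖z₂‖) (le_max_right ‖z₁‖ ‖z₂‖) ht1 ha hb' hab
    choose ζ hζ1 hζ2 using hst
    have hcomp : IsCompact (closedBall (0 : ℂ) t) := isCompact_closedBall _ _
    have hmem : (Ultrafilter.map ζ l : Filter ℂ) ≤ 𝓟 (closedBall (0 : ℂ) t) := by
      rw [le_principal_iff]
      show ζ ⁻¹' (closedBall (0 : ℂ) t) ∈ (l : Filter ℕ)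
      apply Filter.univ_mem'
      intro n
      show ζ n ∈ closedBall (0 : ℂ) t
      rw [mem_closedBall_zero_iff]
      exact hζ1 n
    obtain ⟨y, hy1, hy⟩ := hcomp.ultrafilter_le_nhds _ hmem
    have hyb : y ∈ ball (0 : ℂ) 1 := closedBall_subset_ball ht1 hy1
    have h1 : Tendsto (fun n => F n (ζ n)) l (𝓝 (f y)) := by
      have hcont : ContinuousWithinAt f (ball 0 1) y := hfd.continuousOn y hyb
      refine htlu.tendsto_comp hcont hyb ?_
      rw [isOpen_ball.nhdsWithin_eq hyb]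
      exact hy
    have h2 : Tendsto (fun n => F n (ζ n)) l (𝓝 (a • f z₁ + b • f z₂)) := by
      have e : (fun n => F n (ζ n)) = fun n => a • F n z₁ + b • F n z₂ := funext hζ2
      rw [e]
      exact ((hf z₁ hz₁).const_smul a).add ((hf z₂ hz₂).const_smul b)
    exact ⟨y, hyb, tendsto_nhds_unique h1 h2⟩
  refine ⟨f, ⟨hfd, hinj, hf0, hfd1, hconv⟩, ?_⟩
  -- kernel property
  intro K hK hKc
  refine hKc.induction_on (p := fun K => ∀ᶠ n in (l : Filter ℕ), K ⊆ F n '' ball 0 1) ?_ ?_ ?_ ?_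
  · exact Eventually.of_forall fun n => empty_subset _
  · intro s t hst ht
    filter_upwards [ht] with n hn using hst.trans hn
  · intro s t hs ht
    filter_upwards [hs, ht] with n h1 h2 using union_subset h1 h2
  · intro x hx
    obtain ⟨z₀, hz₀, rfl⟩ := hK hx
    obtain ⟨ρ, hρ, hρs⟩ := Metric.isOpen_iff.1 isOpen_ball z₀ hz₀
    have hρ2 : closedBall z₀ (ρ / 2) ⊆ ball 0 1 :=
      (closedBall_subset_ball (by linarith)).trans hρs
    -- lower bound of |f - f z0| on the sphere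
    have hsph : IsCompact (sphere z₀ (ρ / 2)) := isCompact_sphere _ _
    have hsphne : (sphere z₀ (ρ / 2)).Nonempty := NormedSpace.sphere_nonempty.mpr (by positivity)
    have hcontf : ContinuousOn (fun z => ‖f z - f z₀‖) (sphere z₀ (ρ / 2)) := by
      apply ContinuousOn.norm
      apply ContinuousOn.sub _ continuousOn_const
      exact hfd.continuousOn.mono (sphere_subset_closedBall.trans hρ2)
    obtain ⟨z₁, hz₁, hmin⟩ := hsph.exists_isMinOn hsphne hcontf
    set δ := ‖f z₁ - f z₀‖ with hδ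
    have hδ0 : 0 < δ := by
      rw [hδ, norm_pos_iff, sub_ne_zero]
      intro h
      have h2 := hinj (hρ2 (sphere_subset_closedBall hz₁)) hz₀ h
      rw [h2, mem_sphere, dist_self] at hz₁
      linarith
    -- uniform convergence on the closed ball
    have hunif : TendstoUniformlyOn F f (l : Filter ℕ) (closedBall z₀ (ρ / 2)) :=
      (tendstoLocallyUniformlyOn_iff_forall_isCompact isOpen_ball).mp htlu _ hρ2 (isCompact_closedBall _ _)
    rw [Metric.tendstoUniformlyOn_iff] at hunif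
    have hev := hunif (δ / 8) (by positivity)
    refine ⟨ball (f z₀) (δ / 8), mem_nhdsWithin_of_mem_nhds (ball_mem_nhds _ (by positivity)), ?_⟩
    filter_upwards [hev] with n hn
    have hz0c : z₀ ∈ closedBall z₀ (ρ / 2) := mem_closedBall_self (by positivity)
    have h0 := hn z₀ hz0c
    have hsp : ∀ z ∈ sphere z₀ (ρ / 2), δ / 2 ≤ ‖F n z - F n z₀‖ := by
      intro z hz
      have h1 := hn z (sphere_subset_closedBall hz)
      have h2 : δ ≤ ‖f z - f z₀‖ := hmin hz
      rw [dist_eq_norm] at h0 h1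
      have h3 : ‖f z - f z₀‖ ≤ ‖f z - F n z‖ + ‖F n z - F n z₀‖ + ‖f z₀ - F n z₀‖ := by
        have e : f z - f z₀ = (f z - F n z) + (F n z - F n z₀) - (f z₀ - F n z₀) := by ring
        rw [e]
        exact (norm_sub_le _ _).trans (by gcongr; exact norm_add_le _ _)
      linarith
    have hdc : DiffContOnCl ℂ (F n) (ball z₀ (ρ / 2)) := by
      apply DifferentiableOn.diffContOnCl
      rw [closure_ball _ (by positivity : ρ / 2 ≠ 0)]
      exact (hd n).mono hρ2
    have hfreq : ∃ᶠ z in 𝓝 z₀, F n z ≠ F n z₀ := by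
      have h1 : ∃ᶠ z in 𝓝[≠] z₀, F n z ≠ F n z₀ := by
        apply Filter.Eventually.frequently
        rw [eventually_nhdsWithin_iff]
        filter_upwards [isOpen_ball.mem_nhds hz₀] with z hz hne h
        exact hne ((hF n).2.1 hz hz₀ h)
      exact h1.filter_mono nhdsWithin_le_nhds
    have hball := hdc.ball_subset_image_closedBall (by positivity) hsp hfreq
    intro w hw
    rw [mem_ball] at hw
    have h4 : w ∈ ball (F n z₀) (δ / 2 / 2) := by
      rw [mem_ball]
      have := dist_triangle w (f z₀) (F n z₀)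
      linarith
    exact image_mono hρ2 (hball h4)

lemma id_mem_Sc : (fun z : ℂ => z) ∈ Sc := by
  refine ⟨by fun_prop, fun x _ y _ h => h, rfl, by simp, ?_⟩
  rw [image_id']
  exact convex_ball _ _

/-- An extremal domain exists. -/
theorem exists_extremal (r : ℝ) : ∃ f ∈ Sc, omittedArea f r = Ac r := by
  set S : Set ENNReal := (fun f => omittedArea f r) '' Sc with hS
  have hAc : Ac r = sSup S := by rw [Ac, hS, sSup_image]
  have hne : S.Nonempty := ⟨_, mem_image_of_mem _ id_mem_Sc⟩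
  obtain ⟨u, _, hu, hu2⟩ := exists_seq_tendsto_sSup hne (OrderTop.bddAbove S)
  choose F hF hFu using hu2
  obtain ⟨f, hf, hK⟩ := limit_Sc hF
  refine ⟨f, hf, le_antisymm (le_iSup₂ (f := fun f (_ : f ∈ Sc) => omittedArea f r) f hf) ?_⟩
  have hle : ((Filter.hyperfilter ℕ : Ultrafilter ℕ) : Filter ℕ) ≤ atTop := by
    rw [← Nat.cofinite_eq_atTop]; exact Filter.hyperfilter_le_cofinite
  have hu' : Tendsto u ((Filter.hyperfilter ℕ : Ultrafilter ℕ) : Filter ℕ) (𝓝 (Ac r)) := by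
    rw [hAc]; exact hu.mono_left hle
  -- compact exhaustion
  set K : ℕ → Set ℂ := fun k => f '' closedBall 0 (1 - 1 / (k + 2 : ℝ)) with hKdef
  have hrad : ∀ k : ℕ, 1 - 1 / (k + 2 : ℝ) < 1 := by
    intro k
    have : (0 : ℝ) < 1 / (k + 2 : ℝ) := by positivity
    linarith
  have hKc : ∀ k, IsCompact (K k) := fun k =>
    (isCompact_closedBall _ _).image_of_continuousOn
      (hf.1.continuousOn.mono (closedBall_subset_ball (hrad k)))
  have hKs : ∀ k, K k ⊆ f '' ball 0 1 := fun k => image_mono (closedBall_subset_ball (hrad k))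
  have hbd : ∀ k, Ac r ≤ volume (ball (0 : ℂ) r \ K k) := by
    intro k
    refine le_of_tendsto hu' ?_
    filter_upwards [hK (K k) (hKs k) (hKc k)] with n hn
    rw [← hFu n]
    exact measure_mono (sdiff_subset_sdiff_right hn)
  have hInter : ⋂ k, (ball (0 : ℂ) r \ K k) = ball (0 : ℂ) r \ f '' ball 0 1 := by
    rw [← sdiff_iUnion]
    congr 1
    apply subset_antisymm
    · exact iUnion_subset hKs
    · rintro _ ⟨z, hz, rfl⟩
      rw [mem_ball_zero_iff] at hz
      obtain ⟨k, hk⟩ := exists_nat_gt (1 / (1 - ‖z‖))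
      refine mem_iUnion.mpr ⟨k, mem_image_of_mem f ?_⟩
      rw [mem_closedBall_zero_iff]
      have h1 : 0 < 1 - ‖z‖ := by linarith
      have h2 : 1 / (k + 2 : ℝ) ≤ 1 - ‖z‖ := by
        rw [div_le_iff₀ (by positivity)]
        rw [div_lt_iff₀ h1] at hk
        nlinarith
      linarith
  have hanti : Antitone (fun k => ball (0 : ℂ) r \ K k) := by
    intro j k hjk
    apply sdiff_subset_sdiff_right
    apply image_mono
    apply closedBall_subset_closedBall
    have : 1 / (k + 2 : ℝ) ≤ 1 / (j + 2 : ℝ) := by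
      apply one_div_le_one_div_of_le (by positivity)
      have : (j : ℝ) ≤ k := by exact_mod_cast hjk
      linarith
    linarith
  have hlim := tendsto_measure_iInter_atTop (μ := volume) (s := fun k => ball (0 : ℂ) r \ K k)
    (fun k => (measurableSet_ball.diff (hKc k).isClosed.measurableSet).nullMeasurableSet) hanti
    ⟨0, ((measure_mono sdiff_subset).trans_lt measure_ball_lt_top).ne⟩
  rw [hInter] at hlim
  exact ge_of_tendsto hlim (Eventually.of_forall hbd)

/-! ### Comparison domains -/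

/-- Riemann mapping theorem in the form needed here. -/
lemma exists_Sc_of_domain {D : Set ℂ} (hD : IsOpen D) (hc : Convex ℝ D) (h0 : (0 : ℂ) ∈ D)
    (hne : D ≠ univ) : ∃ R : ℝ, 0 < R ∧ ∃ f ∈ Sc, f '' ball 0 1 = {w : ℂ | (R : ℂ) * w ∈ D} ∧
      ∀ h : ℂ → ℂ, DifferentiableOn ℂ h (ball 0 1) → MapsTo h (ball 0 1) D → h 0 = 0 →
        ‖deriv h 0‖ ≤ R := by
  have hsc : IsSimplyConnected D := by
    have := hc.contractibleSpace ⟨0, h0⟩
    exact (inferInstance : SimplyConnectedSpace D)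
  obtain ⟨g, φ, hg1, hg2, hg3, hg4, hφ1, hφ2, hφ3, hφ4⟩ :=
    Pool.Agent.Helper202.Riemann.riemann_inv hD hsc hne h0
  have hz0 : (0 : ℂ) ∈ ball (0 : ℂ) 1 := mem_ball_self one_pos
  set c := deriv g 0 with hcdef
  have hc0 : c ≠ 0 := hg3 0 hz0
  have hR : 0 < ‖c‖ := norm_pos_iff.mpr hc0
  have hRC : ((‖c‖ : ℝ) : ℂ) ≠ 0 := by exact_mod_cast hR.ne'
  set ω : ℂ := (starRingEnd ℂ) c / ‖c‖ with hω
  have hωn : ‖ω‖ = 1 := by
    rw [hω, norm_div, Complex.norm_real, norm_norm, RCLike.norm_conj, div_self hR.ne']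
  have hω0 : ω ≠ 0 := by
    intro h; rw [h, norm_zero] at hωn; exact zero_ne_one hωn
  have hcω : c * ω = ‖c‖ := by
    rw [hω, mul_div_assoc', Complex.mul_conj, Complex.normSq_eq_norm_sq]
    push_cast
    rw [sq, mul_div_assoc, div_self hRC, mul_one]
  have hgd : HasDerivAt g c 0 := (hg1.differentiableAt (isOpen_ball.mem_nhds hz0)).hasDerivAt
  have hrot : ∀ z : ℂ, ω * z ∈ ball (0 : ℂ) 1 ↔ z ∈ ball (0 : ℂ) 1 := by
    intro z
    rw [mem_ball_zero_iff, mem_ball_zero_iff, norm_mul, hωn, one_mul]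
  refine ⟨‖c‖, hR, fun z => g (ω * z) / ‖c‖, ⟨?_, ?_, ?_, ?_, ?_⟩, ?_, ?_⟩
  · apply DifferentiableOn.div_const
    exact hg1.comp (by fun_prop) (fun z hz => (hrot z).mpr hz)
  · intro z hz w hw h
    have h1 : g (ω * z) = g (ω * w) := by
      have := congrArg (fun x => x * ((‖c‖ : ℝ) : ℂ)) h
      simp only at this
      rwa [div_mul_cancel₀ _ hRC, div_mul_cancel₀ _ hRC] at this
    have h2 := hg2.injOn ((hrot z).mpr hz) ((hrot w).mpr hw) h1
    exact mul_left_cancel₀ hω0 h2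
  · simp [hg4]
  · have h1 : HasDerivAt (fun z => g (ω * z) / ‖c‖) (c * (ω * 1) / ‖c‖) 0 := by
      have h2 : HasDerivAt (fun z : ℂ => ω * z) (ω * 1) 0 := (hasDerivAt_id (0 : ℂ)).const_mul ω
      have h3 : HasDerivAt g c (ω * 0) := by rw [mul_zero]; exact hgd
      exact (HasDerivAt.comp (0 : ℂ) h3 h2).div_const _
    rw [h1.deriv, mul_one, hcω, div_self hRC]
  · have : (fun z => g (ω * z) / ((‖c‖ : ℝ) : ℂ)) '' ball 0 1 = {w : ℂ | ((‖c‖ : ℝ) : ℂ) * w ∈ D} := by
      ext w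
      constructor
      · rintro ⟨z, hz, rfl⟩
        show ((‖c‖ : ℝ) : ℂ) * (g (ω * z) / ((‖c‖ : ℝ) : ℂ)) ∈ D
        rw [mul_div_cancel₀ _ hRC]
        exact hg2.mapsTo ((hrot z).mpr hz)
      · intro hw
        obtain ⟨z, hz, hzw⟩ := hg2.surjOn hw
        refine ⟨ω⁻¹ * z, ?_, ?_⟩
        · rw [← hrot, mul_inv_cancel_left₀ hω0]; exact hz
        · show g (ω * (ω⁻¹ * z)) / ((‖c‖ : ℝ) : ℂ) = w
          rw [mul_inv_cancel_left₀ hω0, hzw, mul_div_cancel_left₀ _ hRC]
    rw [this]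
    exact hc.linear_preimage (LinearMap.mulLeft ℝ ((‖c‖ : ℝ) : ℂ))
  · ext w
    constructor
    · rintro ⟨z, hz, rfl⟩
      show ((‖c‖ : ℝ) : ℂ) * (g (ω * z) / ((‖c‖ : ℝ) : ℂ)) ∈ D
      rw [mul_div_cancel₀ _ hRC]
      exact hg2.mapsTo ((hrot z).mpr hz)
    · intro hw
      obtain ⟨z, hz, hzw⟩ := hg2.surjOn hw
      refine ⟨ω⁻¹ * z, ?_, ?_⟩
      · rw [← hrot, mul_inv_cancel_left₀ hω0]; exact hz
      · show g (ω * (ω⁻¹ * z)) / ((‖c‖ : ℝ) : ℂ) = w
        rw [mul_inv_cancel_left₀ hω0, hzw, mul_div_cancel_left₀ _ hRC]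
  · intro h hd hm hh0
    have hk : DifferentiableOn ℂ (fun z => φ (h z)) (ball 0 1) := hφ1.comp hd hm
    have hkm : MapsTo (fun z => φ (h z)) (ball 0 1) (ball 0 1) := hφ2.comp hm
    have hφ0 : φ 0 = 0 := by
      have := hφ4 0 hz0
      rwa [hg4] at this
    have hk0 : φ (h 0) = 0 := by rw [hh0, hφ0]
    have h1 := Complex.norm_deriv_le_one_of_mapsTo_ball hk (R := 1) (c := 0)
      (by simp only [hk0]; exact fun z hz => ball_subset_closedBall (hkm hz)) one_pos
    have hh : HasDerivAt h (deriv h 0) 0 :=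
      (hd.differentiableAt (isOpen_ball.mem_nhds hz0)).hasDerivAt
    have hφd : HasDerivAt φ (deriv φ 0) 0 :=
      (hφ1.differentiableAt (hD.mem_nhds h0)).hasDerivAt
    have hφg : deriv φ 0 * c = 1 := by
      have h2 : HasDerivAt (fun z => φ (g z)) (deriv φ 0 * c) 0 := by
        have h3 : HasDerivAt φ (deriv φ 0) (g 0) := by rw [hg4]; exact hφd
        exact HasDerivAt.comp (0 : ℂ) h3 hgd
      have h4 : HasDerivAt (fun z => φ (g z)) 1 0 := by
        refine (hasDerivAt_id (0 : ℂ)).congr_of_eventuallyEq ?_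
        filter_upwards [isOpen_ball.mem_nhds hz0] with z hz
        exact hφ4 z hz
      exact h2.unique h4
    have h5 : HasDerivAt (fun z => φ (h z)) (deriv φ 0 * deriv h 0) 0 := by
      have h3 : HasDerivAt φ (deriv φ 0) (h 0) := by rw [hh0]; exact hφd
      exact HasDerivAt.comp (0 : ℂ) h3 hh
    rw [h5.deriv, norm_mul] at h1
    have h6 : ‖deriv φ 0‖ * ‖c‖ = 1 := by rw [← norm_mul, hφg, norm_one]
    have h7 : ‖deriv φ 0‖ * ‖deriv h 0‖ * ‖c‖ = ‖deriv h 0‖ := by
      calc _ = (‖deriv φ 0‖ * ‖c‖) * ‖deriv h 0‖ := by ring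
        _ = _ := by rw [h6, one_mul]
    rw [← h7]
    calc ‖deriv φ 0‖ * ‖deriv h 0‖ * ‖c‖ ≤ 1 * ‖c‖ := mul_le_mul_of_nonneg_right h1 hR.le
      _ = ‖c‖ := one_mul _

/-- Lower bound for `A^c(r)` from a convex domain with a holomorphic map into it. -/
lemma Ac_ge {D : Set ℂ} (hD : IsOpen D) (hc : Convex ℝ D) (h0 : (0 : ℂ) ∈ D)
    (hne : D ≠ univ) {h : ℂ → ℂ} (hd : DifferentiableOn ℂ h (ball 0 1))
    (hm : MapsTo h (ball 0 1) D) (hh0 : h 0 = 0) {ρ : ℝ} (hρ : 0 < ρ) (hρ2 : ρ ≤ ‖deriv h 0‖)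
    (r : ℝ) : volume (ball (0 : ℂ) r \ {w : ℂ | (ρ : ℂ) * w ∈ D}) ≤ Ac r := by
  obtain ⟨R, hR, f, hf, hfD, hR2⟩ := exists_Sc_of_domain hD hc h0 hne
  have hρR : ρ ≤ R := hρ2.trans (hR2 h hd hm hh0)
  have h1 : omittedArea f r ≤ Ac r := le_iSup₂ (f := fun f (_ : f ∈ Sc) => omittedArea f r) f hf
  refine le_trans ?_ h1
  rw [omittedArea, hfD]
  apply measure_mono
  apply sdiff_subset_sdiff_right
  intro w hw
  have h2 := hc hw h0 (a := ρ / R) (b := 1 - ρ / R) (by positivity)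
    (by rw [sub_nonneg]; exact div_le_one_of_le₀ hρR hR.le) (by ring)
  have hRC : (R : ℂ) ≠ 0 := by exact_mod_cast hR.ne'
  have e : (ρ / R) • ((R : ℂ) * w) + (1 - ρ / R) • (0 : ℂ) = (ρ : ℂ) * w := by
    rw [smul_zero, add_zero, Complex.real_smul]
    push_cast
    field_simp
  rw [e] at h2
  exact h2

/-! ### Sectors -/

/-- The sector with vertex `-d`, symmetric about the real axis, with slope `m`. -/
def Sector (m d : ℝ) : Set ℂ := {w | |w.im| < m * (w.re + d)}

lemma sector_open (m d : ℝ) : IsOpen (Sector m d) := by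
  unfold Sector
  apply isOpen_lt
  · exact (continuous_abs.comp Complex.continuous_im)
  · exact continuous_const.mul (Complex.continuous_re.add continuous_const)

lemma sector_convex (m d : ℝ) : Convex ℝ (Sector m d) := by
  intro x hx y hy a b ha hb hab
  simp only [Sector, mem_ofPred_eq] at hx hy ⊢
  have e1 : (a • x + b • y).im = a * x.im + b * y.im := by simp
  have e2 : (a • x + b • y).re = a * x.re + b * y.re := by simp
  rw [e1, e2]
  have h1 : |a * x.im + b * y.im| ≤ a * |x.im| + b * |y.im| := by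
    calc |a * x.im + b * y.im| ≤ |a * x.im| + |b * y.im| := abs_add_le _ _
      _ = a * |x.im| + b * |y.im| := by rw [abs_mul, abs_mul, abs_of_nonneg ha, abs_of_nonneg hb]
  have h2 : m * (a * x.re + b * y.re + d) = a * (m * (x.re + d)) + b * (m * (y.re + d)) := by
    have : d = (a + b) * d := by rw [hab, one_mul]
    nth_rewrite 1 [this]; ring
  rw [h2]
  rcases ha.eq_or_lt with h | h
  · have hb1 : b = 1 := by linarith
    rw [← h, hb1] at h1 ⊢
    simp only [zero_mul, one_mul, zero_add] at h1 ⊢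
    exact lt_of_le_of_lt h1 hy
  · have h3 : a * |x.im| < a * (m * (x.re + d)) := mul_lt_mul_of_pos_left hx h
    have h4 : b * |y.im| ≤ b * (m * (y.re + d)) := mul_le_mul_of_nonneg_left hy.le hb
    linarith

section powers

variable {β : ℝ}

lemma alpha_bounds (hβ : 0 < β) (hβ1 : β < 1) : 0 < β * (Real.pi / 2) ∧ β * (Real.pi / 2) < Real.pi / 2 := by
  have := Real.pi_pos
  refine ⟨by positivity, ?_⟩
  nlinarith

lemma pow_sector (hβ : 0 < β) (hβ1 : β < 1) {U : ℂ} (hU : 0 < U.re) :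
    |(U ^ (β : ℂ)).im| < Real.tan (β * (Real.pi / 2)) * (U ^ (β : ℂ)).re ∧
    ‖U‖ ^ β * Real.cos (β * (Real.pi / 2)) < (U ^ (β : ℂ)).re := by
  obtain ⟨hα0, hα1⟩ := alpha_bounds hβ hβ1
  set α := β * (Real.pi / 2) with hα
  have hUn : 0 < ‖U‖ := by
    rw [norm_pos_iff]; intro h; rw [h] at hU; simp at hU
  have harg : |arg U| < Real.pi / 2 := by
    rw [Complex.abs_arg_lt_pi_div_two_iff]; left; exact hU
  rw [Complex.cpow_ofReal_re, Complex.cpow_ofReal_im]
  have hp : 0 < ‖U‖ ^ β := Real.rpow_pos_of_pos hUn β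
  set θ := arg U * β with hθ
  have hθα : |θ| < α := by
    rw [hθ, abs_mul, abs_of_pos hβ, hα]
    have := mul_lt_mul_of_pos_right harg hβ
    linarith
  have hcos : Real.cos α < Real.cos θ := by
    rw [← Real.cos_abs θ]
    exact Real.cos_lt_cos_of_nonneg_of_le_pi_div_two (abs_nonneg _) hα1.le hθα
  have hcosα : 0 < Real.cos α := Real.cos_pos_of_mem_Ioo ⟨by linarith, hα1⟩
  have hcosθ : 0 < Real.cos θ := lt_trans hcosα hcos
  refine ⟨?_, mul_lt_mul_of_pos_left hcos hp⟩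
  rw [abs_mul, abs_of_pos hp]
  have htan : Real.tan |θ| < Real.tan α :=
    Real.tan_lt_tan_of_nonneg_of_lt_pi_div_two (abs_nonneg _) hα1 hθα
  have h1 : |Real.sin θ| < Real.tan α * Real.cos θ := by
    have h2 : |Real.sin θ| = Real.tan |θ| * Real.cos θ := by
      rw [← Real.cos_abs θ, Real.tan_mul_cos (by rw [Real.cos_abs]; exact hcosθ.ne')]
      have h3 : |θ| < Real.pi := by
        have := Real.pi_pos
        linarith
      rcases abs_cases θ with ⟨h, _⟩ | ⟨h, _⟩
      · rw [h, abs_of_nonneg (Real.sin_nonneg_of_nonneg_of_le_pi (by linarith [abs_nonneg θ]) (by linarith))]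
      · rw [h, Real.sin_neg, abs_of_nonpos]
        apply Real.sin_nonpos_of_nonpos_of_neg_pi_le (by linarith [abs_nonneg θ]) (by linarith)
    rw [h2]
    exact mul_lt_mul_of_pos_right htan hcosθ
  calc ‖U‖ ^ β * |Real.sin θ| < ‖U‖ ^ β * (Real.tan α * Real.cos θ) := mul_lt_mul_of_pos_left h1 hp
    _ = Real.tan α * (‖U‖ ^ β * Real.cos θ) := by ring

lemma root_re_pos (hβ : 0 < β) (hβ1 : β < 1) {X : ℂ}
    (hX : |X.im| < Real.tan (β * (Real.pi / 2)) * X.re) : 0 < X.re ∧ 0 < (X ^ ((1 / β : ℝ) : ℂ)).re := by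
  obtain ⟨hα0, hα1⟩ := alpha_bounds hβ hβ1
  set α := β * (Real.pi / 2) with hα
  have hm : 0 < Real.tan α := Real.tan_pos_of_pos_of_lt_pi_div_two hα0 hα1
  have hre : 0 < X.re := by
    have h1 : 0 < Real.tan α * X.re := lt_of_le_of_lt (abs_nonneg _) hX
    exact (mul_pos_iff_of_pos_left hm).mp h1
  refine ⟨hre, ?_⟩
  have hXn : 0 < ‖X‖ := by
    rw [norm_pos_iff]; intro h; rw [h] at hre; simp at hre
  have harg : |arg X| < Real.pi / 2 := by
    rw [Complex.abs_arg_lt_pi_div_two_iff]; left; exact hre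
  have htan : Real.tan (arg X) = X.im / X.re := Complex.tan_arg X
  obtain ⟨ha1, ha2⟩ := abs_lt.mp harg
  obtain ⟨hi1, hi2⟩ := abs_lt.mp hX
  have h1 : arg X < α := by
    by_contra hcon
    push Not at hcon
    have : Real.tan α ≤ Real.tan (arg X) := by
      rcases hcon.eq_or_lt with h | h
      · rw [h]
      · exact (Real.tan_lt_tan_of_nonneg_of_lt_pi_div_two hα0.le ha2 h).le
    rw [htan, le_div_iff₀ hre] at this
    linarith
  have h2 : -α < arg X := by
    by_contra hcon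
    push Not at hcon
    have : Real.tan α ≤ Real.tan (-arg X) := by
      have h3 : α ≤ -arg X := by linarith
      rcases h3.eq_or_lt with h | h
      · rw [h]
      · exact (Real.tan_lt_tan_of_nonneg_of_lt_pi_div_two hα0.le (by linarith) h).le
    rw [Real.tan_neg, htan, ← neg_div, le_div_iff₀ hre] at this
    linarith
  rw [Complex.cpow_ofReal_re]
  apply mul_pos (Real.rpow_pos_of_pos hXn _)
  apply Real.cos_pos_of_mem_Ioo
  have hb : 0 < 1 / β := by positivity
  have e : α * (1 / β) = Real.pi / 2 := by rw [hα]; field_simp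
  constructor
  · have := mul_lt_mul_of_pos_right h2 hb
    rw [neg_mul, e] at this
    exact this
  · have := mul_lt_mul_of_pos_right h1 hb
    rw [e] at this
    exact this

/-- If `f ∈ S^c` maps onto the sector, then `1 ≤ 2 β d`. -/
lemma sector_d_ge (hβ : 0 < β) (hβ1 : β < 1) {d : ℝ} (hd : 0 < d) {f : ℂ → ℂ} (hf : f ∈ Sc)
    (hD : f '' ball 0 1 = Sector (Real.tan (β * (Real.pi / 2))) d) : 1 ≤ 2 * β * d := by
  set m := Real.tan (β * (Real.pi / 2)) with hm
  set v : ℂ → ℂ := fun w => (1 + w / d) ^ ((1 / β : ℝ) : ℂ) with hv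
  have hdC : (d : ℂ) ≠ 0 := by exact_mod_cast hd.ne'
  have hX : ∀ w ∈ Sector m d, |(1 + w / d).im| < m * (1 + w / d).re := by
    intro w hw
    have e1 : (1 + w / (d : ℂ)).im = w.im / d := by simp [Complex.div_ofReal_im]
    have e2 : (1 + w / (d : ℂ)).re = (w.re + d) / d := by
      simp [Complex.div_ofReal_re]; field_simp; ring
    rw [e1, e2, abs_div, abs_of_pos hd, mul_div_assoc', div_lt_div_iff_of_pos_right hd]
    exact hw
  have hvre : ∀ w ∈ Sector m d, 0 < (v w).re := fun w hw => (root_re_pos hβ hβ1 (hX w hw)).2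
  have hv1 : ∀ w ∈ Sector m d, v w + 1 ≠ 0 := by
    intro w hw h
    have h1 := congrArg Complex.re h
    simp only [Complex.add_re, Complex.one_re, Complex.zero_re] at h1
    linarith [hvre w hw]
  have hvd : ∀ w ∈ Sector m d, DifferentiableAt ℂ v w := by
    intro w hw
    apply DifferentiableAt.cpow_const
    · fun_prop
    · left; exact (root_re_pos hβ hβ1 (hX w hw)).1
  have h := schwarz_into hf (G := fun w => (v w - 1) / (v w + 1)) ?_ ?_ ?_
  · have h0 : (0 : ℂ) ∈ Sector m d := by rw [← hD]; exact ⟨0, mem_ball_self one_pos, hf.2.2.1⟩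
    have hv0 : v 0 = 1 := by simp [hv]
    have hder : HasDerivAt v (((1 / β : ℝ) : ℂ) * (1 + 0 / d) ^ (((1 / β : ℝ) : ℂ) - 1) * (1 / d)) 0 := by
      have h1 : HasDerivAt (fun w : ℂ => 1 + w / d) (1 / d) 0 := by
        simpa using ((hasDerivAt_id (0 : ℂ)).div_const (d : ℂ)).const_add 1
      exact h1.cpow_const (by left; simp)
    have hone : ((1 : ℂ) + 0 / d) = 1 := by simp
    rw [hone, Complex.one_cpow, mul_one] at hder
    have h2 := (hder.sub_const 1).div (hder.add_const 1) (hv1 0 h0)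
    have h3 : deriv (fun w => (v w - 1) / (v w + 1)) 0 = ((1 / (2 * β * d) : ℝ) : ℂ) := by
      have h4 : HasDerivAt (fun w => (v w - 1) / (v w + 1)) _ 0 := h2
      rw [h4.deriv, hv0]
      push_cast
      field_simp
      ring
    rw [h3, Complex.norm_real, Real.norm_of_nonneg (by positivity), div_le_one (by positivity)] at h
    exact h
  · rw [hD]
    intro w hw
    exact (((hvd w hw).sub_const 1).div ((hvd w hw).add_const 1) (hv1 w hw)).differentiableWithinAt
  · rw [hD]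
    intro w hw
    rw [mem_ball_zero_iff, norm_div, div_lt_one (norm_pos_iff.mpr (hv1 w hw))]
    have h1 := hvre w hw
    rw [← sq_lt_sq₀ (norm_nonneg _) (norm_nonneg _), Complex.sq_norm, Complex.sq_norm, Complex.normSq_apply,
      Complex.normSq_apply]
    simp only [Complex.sub_re, Complex.one_re, Complex.sub_im, Complex.one_im, Complex.add_re, Complex.add_im]
    nlinarith
  · simp [hv]

end powers

/-! ### The comparison map -/

/-- The rational map of the right half-plane into itself, avoiding a neighbourhood of `0`. -/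
noncomputable def Nm (ε : ℝ) (u : ℂ) : ℂ := u + (ε : ℂ) ^ 2 / (u + ε)

lemma Nm_re {ε : ℝ} (hε : 0 ≤ ε) {u : ℂ} (hu : 0 < u.re) : 0 < (Nm ε u).re := by
  have h1 : 0 < (u + ε).re := by simp; linarith
  have h2 : 0 < Complex.normSq (u + ε) := by
    rw [Complex.normSq_pos]; intro h; rw [h] at h1; simp at h1
  have h3 : ((ε : ℂ) ^ 2 / (u + ε)).re = ε ^ 2 * ((u + ε).re / Complex.normSq (u + ε)) := by
    have : (ε : ℂ) ^ 2 / (u + ε) = ((ε ^ 2 : ℝ) : ℂ) * (u + ε)⁻¹ := by push_cast; ring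
    rw [this, Complex.re_ofReal_mul, Complex.inv_re]
  rw [Nm, Complex.add_re, h3]
  positivity

lemma Nm_norm_one {s : ℂ} (hs : 0 < s.re) : 2 / 5 ≤ ‖s + 1 / (s + 1)‖ := by
  have h1 : ‖s + 1‖ ^ 2 = ‖s‖ ^ 2 + 2 * s.re + 1 := by
    rw [Complex.sq_norm, Complex.sq_norm, Complex.normSq_apply, Complex.normSq_apply]
    simp only [Complex.add_re, Complex.one_re, Complex.add_im, Complex.one_im]
    ring
  have hs1 : 0 < ‖s + 1‖ := by
    rw [norm_pos_iff]; intro h
    have := congrArg Complex.re h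
    simp at this; linarith
  rcases le_or_gt (6 / 5) ‖s‖ with h | h
  · have h2 : 3 / 2 ≤ ‖s + 1‖ := by
      by_contra hcon
      push Not at hcon
      have h3 : ‖s + 1‖ ^ 2 < (3 / 2) ^ 2 := pow_lt_pow_left₀ hcon (norm_nonneg _) (by norm_num)
      have h4 : (6 / 5 : ℝ) ^ 2 ≤ ‖s‖ ^ 2 := pow_le_pow_left₀ (by norm_num) h 2
      rw [h1] at h3
      norm_num at h3 h4
      linarith
    have h3 : ‖1 / (s + 1)‖ ≤ 2 / 3 := by
      rw [norm_div, norm_one, div_le_iff₀ hs1]; linarith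
    have h4 : ‖s‖ ≤ ‖s + 1 / (s + 1)‖ + ‖1 / (s + 1)‖ := by
      calc ‖s‖ = ‖(s + 1 / (s + 1)) - 1 / (s + 1)‖ := by rw [add_sub_cancel_right]
        _ ≤ _ := norm_sub_le _ _
    linarith
  · have h2 : (1 / (s + 1)).re = (s.re + 1) / ‖s + 1‖ ^ 2 := by
      rw [one_div, Complex.inv_re, Complex.normSq_eq_norm_sq]; simp
    have h3 : ‖s‖ ^ 2 ≤ (6 / 5) ^ 2 := pow_le_pow_left₀ (norm_nonneg _) h.le 2
    have h4 : 2 / 5 ≤ (1 / (s + 1)).re := by
      rw [h2, le_div_iff₀ (by positivity), h1]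
      norm_num at h3
      linarith
    have h5 : (s + 1 / (s + 1)).re ≤ ‖s + 1 / (s + 1)‖ := Complex.re_le_norm _
    rw [Complex.add_re] at h5
    linarith

lemma Nm_norm {ε : ℝ} (hε : 0 < ε) {u : ℂ} (hu : 0 < u.re) : 2 / 5 * ε ≤ ‖Nm ε u‖ := by
  have hεC : (ε : ℂ) ≠ 0 := by exact_mod_cast hε.ne'
  have h1 : 0 < (u / (ε : ℂ)).re := by rw [Complex.div_ofReal_re]; positivity
  have h2 := Nm_norm_one h1
  have hne : u + ε ≠ 0 := by
    intro h
    have := congrArg Complex.re h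
    simp at this; linarith
  have hne2 : u / (ε : ℂ) + 1 ≠ 0 := by
    intro h
    have := congrArg Complex.re h
    simp only [Complex.add_re, Complex.one_re, Complex.zero_re] at this
    linarith
  have e : Nm ε u = (ε : ℂ) * (u / (ε : ℂ) + 1 / (u / (ε : ℂ) + 1)) := by
    rw [Nm]; field_simp
  rw [e, norm_mul, Complex.norm_real, Real.norm_of_nonneg hε.le]
  nlinarith

/-- Normalised version, fixing `1`. -/
noncomputable def Ph (ε : ℝ) (u : ℂ) : ℂ := Nm ε u / ((1 + ε ^ 2 / (1 + ε) : ℝ) : ℂ)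

lemma Ph_re {ε : ℝ} (hε : 0 ≤ ε) {u : ℂ} (hu : 0 < u.re) : 0 < (Ph ε u).re := by
  rw [Ph, Complex.div_ofReal_re]
  have := Nm_re hε hu
  positivity

lemma Ph_norm {ε : ℝ} (hε : 0 < ε) (hε1 : ε ≤ 1 / 3) {u : ℂ} (hu : 0 < u.re) :
    ε / 3 ≤ ‖Ph ε u‖ := by
  have h1 := Nm_norm hε hu
  have h2 : 0 < 1 + ε ^ 2 / (1 + ε) := by positivity
  rw [Ph, norm_div, Complex.norm_real, Real.norm_of_nonneg h2.le, le_div_iff₀ h2]
  have h3 : ε ^ 2 / (1 + ε) ≤ 1 / 9 := by
    rw [div_le_iff₀ (by positivity)]; nlinarith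
  nlinarith

lemma Ph_one {ε : ℝ} (hε : 0 ≤ ε) : Ph ε 1 = 1 := by
  have h2 : 0 < 1 + ε ^ 2 / (1 + ε) := by positivity
  have h3 : ((1 + ε ^ 2 / (1 + ε) : ℝ) : ℂ) ≠ 0 := by exact_mod_cast h2.ne'
  rw [Ph, div_eq_one_iff_eq h3, Nm]
  push_cast
  ring

lemma Ph_diff {ε : ℝ} (hε : 0 ≤ ε) {u : ℂ} (hu : 0 < u.re) : DifferentiableAt ℂ (Ph ε) u := by
  have hne : u + ε ≠ 0 := by
    intro h
    have := congrArg Complex.re h
    simp at this; linarith
  unfold Ph Nm
  fun_prop (disch := exact hne)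

lemma Ph_deriv {ε : ℝ} (hε : 0 ≤ ε) :
    HasDerivAt (Ph ε) (((1 - ε ^ 2 / (1 + ε) ^ 2) / (1 + ε ^ 2 / (1 + ε)) : ℝ) : ℂ) 1 := by
  have h1 : 0 < 1 + ε := by linarith
  have hne : (1 : ℂ) + ε ≠ 0 := by
    have : ((1 + ε : ℝ) : ℂ) ≠ 0 := by exact_mod_cast h1.ne'
    push_cast at this; exact this
  have h2 : HasDerivAt (fun u : ℂ => u + (ε : ℂ) ^ 2 / (u + ε)) (1 + (0 * (1 + ε) - (ε : ℂ) ^ 2 * 1) / (1 + ε) ^ 2) 1 := by
    have h3 : HasDerivAt (fun u : ℂ => u + (ε : ℂ)) 1 1 := (hasDerivAt_id (1 : ℂ)).add_const _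
    exact (hasDerivAt_id (1 : ℂ)).add ((hasDerivAt_const (1 : ℂ) ((ε : ℂ) ^ 2)).div h3 hne)
  have h4 := h2.div_const ((1 + ε ^ 2 / (1 + ε) : ℝ) : ℂ)
  have e : (((1 - ε ^ 2 / (1 + ε) ^ 2) / (1 + ε ^ 2 / (1 + ε)) : ℝ) : ℂ) =
      (1 + (0 * (1 + ε) - (ε : ℂ) ^ 2 * 1) / (1 + ε) ^ 2) / ((1 + ε ^ 2 / (1 + ε) : ℝ) : ℂ) := by
    push_cast
    ring
  rw [e]
  exact h4

/-- The comparison map `h = d (Φ_ε((1+z)/(1-z))^β - 1)`. -/
noncomputable def hmap (β d ε : ℝ) (z : ℂ) : ℂ :=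
  d * ((Ph ε ((1 + z) / (1 - z))) ^ (β : ℂ) - 1)

lemma cayley_re {z : ℂ} (hz : z ∈ ball (0 : ℂ) 1) : 1 - z ≠ 0 ∧ 0 < ((1 + z) / (1 - z)).re := by
  rw [mem_ball_zero_iff] at hz
  have hne : 1 - z ≠ 0 := by
    intro h
    have : z = 1 := by linear_combination -h
    rw [this, norm_one] at hz
    exact lt_irrefl _ hz
  refine ⟨hne, ?_⟩
  have h1 : 0 < Complex.normSq (1 - z) := Complex.normSq_pos.mpr hne
  have h2 : ‖z‖ ^ 2 < 1 := pow_lt_one₀ (norm_nonneg _) hz (by norm_num)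
  rw [Complex.sq_norm, Complex.normSq_apply] at h2
  rw [Complex.div_re]
  simp only [Complex.add_re, Complex.one_re, Complex.sub_re, Complex.add_im, Complex.one_im, Complex.sub_im]
  rw [← add_div]
  apply div_pos _ h1
  nlinarith

lemma hmap_diff {β d ε : ℝ} (hε : 0 ≤ ε) : DifferentiableOn ℂ (hmap β d ε) (ball 0 1) := by
  intro z hz
  obtain ⟨h1, h2⟩ := cayley_re hz
  apply DifferentiableAt.differentiableWithinAt
  unfold hmap
  apply DifferentiableAt.const_mul
  apply DifferentiableAt.sub_const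
  apply DifferentiableAt.cpow_const
  · have h3 : DifferentiableAt ℂ (fun z : ℂ => (1 + z) / (1 - z)) z := by
      fun_prop (disch := exact h1)
    exact (Ph_diff hε h2).comp z h3
  · left; exact Ph_re hε h2

lemma hmap_zero {β d ε : ℝ} (hε : 0 ≤ ε) : hmap β d ε 0 = 0 := by
  unfold hmap
  rw [add_zero, sub_zero, div_one, Ph_one hε, Complex.one_cpow, sub_self, mul_zero]

lemma hmap_deriv {β d ε : ℝ} (hε : 0 ≤ ε) :
    deriv (hmap β d ε) 0 = ((2 * β * d * ((1 - ε ^ 2 / (1 + ε) ^ 2) / (1 + ε ^ 2 / (1 + ε))) : ℝ) : ℂ) := by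
  have h1 : HasDerivAt (fun z : ℂ => (1 + z) / (1 - z)) 2 0 := by
    have h2 : HasDerivAt (fun z : ℂ => 1 + z) 1 0 := (hasDerivAt_id (0 : ℂ)).const_add 1
    have h3 : HasDerivAt (fun z : ℂ => 1 - z) (-1) 0 := (hasDerivAt_id (0 : ℂ)).const_sub 1
    have h4 := h2.div h3 (by simp)
    have e : (1 * (1 - 0) - (1 + 0) * (-1)) / (1 - (0 : ℂ)) ^ 2 = 2 := by norm_num
    rw [e] at h4
    exact h4
  have h5 : HasDerivAt (Ph ε) (((1 - ε ^ 2 / (1 + ε) ^ 2) / (1 + ε ^ 2 / (1 + ε)) : ℝ) : ℂ) ((1 + 0) / (1 - (0 : ℂ))) := by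
    rw [add_zero, sub_zero, div_one]; exact Ph_deriv hε
  have h6 := HasDerivAt.comp (0 : ℂ) h5 h1
  have h7 := h6.cpow_const (c := (β : ℂ)) (by
    left
    show 0 < (Ph ε ((1 + 0) / (1 - (0 : ℂ)))).re
    rw [add_zero, sub_zero, div_one, Ph_one hε]; simp)
  have h8 := (h7.sub_const 1).const_mul (d : ℂ)
  have h9 : HasDerivAt (hmap β d ε) _ 0 := h8
  rw [h9.deriv]
  simp only [Function.comp]
  rw [add_zero, sub_zero, div_one, Ph_one hε, Complex.one_cpow]
  push_cast
  ring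

lemma deriv_lower {ε : ℝ} (hε : 0 ≤ ε) (hε1 : ε ≤ 1 / 3) :
    1 - 2 * ε ^ 2 ≤ (1 - ε ^ 2 / (1 + ε) ^ 2) / (1 + ε ^ 2 / (1 + ε)) := by
  have h1 : 0 < 1 + ε ^ 2 / (1 + ε) := by positivity
  have h2 : ε ^ 2 / (1 + ε) ^ 2 ≤ ε ^ 2 := div_le_self (sq_nonneg _) (by nlinarith)
  have h3 : ε ^ 2 / (1 + ε) ≤ ε ^ 2 := div_le_self (sq_nonneg _) (by linarith)
  have h4 : 0 ≤ ε ^ 2 / (1 + ε) := by positivity
  rw [le_div_iff₀ h1]
  have h5 : 0 ≤ 1 - 2 * ε ^ 2 := by nlinarith
  have h6 : (1 - 2 * ε ^ 2) * (1 + ε ^ 2 / (1 + ε)) ≤ (1 - 2 * ε ^ 2) * (1 + ε ^ 2) :=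
    mul_le_mul_of_nonneg_left (by linarith) h5
  have h7 : (1 - 2 * ε ^ 2) * (1 + ε ^ 2) ≤ 1 - ε ^ 2 := by nlinarith [sq_nonneg (ε ^ 2)]
  linarith

lemma hmap_deriv_ge {β d ε : ℝ} (hε : 0 ≤ ε) (hε1 : ε ≤ 1 / 3) (hβd : 1 ≤ 2 * β * d) :
    1 - 2 * ε ^ 2 ≤ ‖deriv (hmap β d ε) 0‖ := by
  rw [hmap_deriv hε, Complex.norm_real]
  have h1 := deriv_lower hε hε1
  have h5 : 0 ≤ 1 - 2 * ε ^ 2 := by nlinarith
  refine le_trans ?_ (le_abs_self _)
  have h2 := mul_le_mul hβd h1 h5 (by linarith)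
  linarith

/-- values of the comparison map -/
lemma hmap_maps {β d ε : ℝ} (hβ : 0 < β) (hβ1 : β < 1) (hd : 0 < d) (hε : 0 ≤ ε) :
    MapsTo (hmap β d ε) (ball 0 1) (Sector (Real.tan (β * (Real.pi / 2))) d) := by
  intro z hz
  obtain ⟨h1, h2⟩ := cayley_re hz
  have h3 := (pow_sector hβ hβ1 (Ph_re hε h2)).1
  set W := (Ph ε ((1 + z) / (1 - z))) ^ (β : ℂ) with hW
  show |(hmap β d ε z).im| < _ * ((hmap β d ε z).re + d)
  have e1 : (hmap β d ε z).im = d * W.im := by
    rw [hmap, ← hW, Complex.im_ofReal_mul]; simp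
  have e2 : (hmap β d ε z).re = d * (W.re - 1) := by
    rw [hmap, ← hW, Complex.re_ofReal_mul]; simp
  rw [e1, e2, abs_mul, abs_of_pos hd]
  have := mul_lt_mul_of_pos_left h3 hd
  linarith

lemma hmap_corner {β d ε : ℝ} (hβ : 0 < β) (hβ1 : β < 1) (hd : 0 < d) (hε : 0 < ε)
    (hε1 : ε ≤ 1 / 3) {z : ℂ} (hz : z ∈ ball (0 : ℂ) 1) :
    -d + d * ((ε / 3) ^ β * Real.cos (β * (Real.pi / 2))) < (hmap β d ε z).re := by
  obtain ⟨h1, h2⟩ := cayley_re hz
  have h3 := (pow_sector hβ hβ1 (Ph_re hε.le h2)).2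
  have h4 := Ph_norm hε hε1 h2
  set W := (Ph ε ((1 + z) / (1 - z))) ^ (β : ℂ) with hW
  have e2 : (hmap β d ε z).re = d * (W.re - 1) := by
    rw [hmap, ← hW, Complex.re_ofReal_mul]; simp
  obtain ⟨hα0, hα1⟩ := alpha_bounds hβ hβ1
  have hcos : 0 < Real.cos (β * (Real.pi / 2)) := Real.cos_pos_of_mem_Ioo ⟨by linarith, hα1⟩
  have h5 : (ε / 3) ^ β ≤ ‖Ph ε ((1 + z) / (1 - z))‖ ^ β :=
    Real.rpow_le_rpow (by positivity) h4 hβ.le
  have h6 := mul_le_mul_of_nonneg_right h5 hcos.le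
  rw [e2]
  have := mul_lt_mul_of_pos_left (lt_of_le_of_lt h6 h3) hd
  linarith

/-! ### Cutting the corner -/

lemma volume_rect (a b c e : ℝ) :
    volume {w : ℂ | w.re ∈ Ioo a b ∧ w.im ∈ Ioo c e} = ENNReal.ofReal (b - a) * ENNReal.ofReal (e - c) := by
  have h := Complex.volume_preserving_equiv_real_prod.measure_preimage
    (s := Ioo a b ×ˢ Ioo c e) ((measurableSet_Ioo.prod measurableSet_Ioo).nullMeasurableSet)
  rw [Measure.volume_eq_prod, Measure.prod_prod, Real.volume_Ioo, Real.volume_Ioo] at h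
  rw [← h]
  congr 1

lemma exists_eps {β K η : ℝ} (hβ : 0 < β) (hβ1 : β < 1) (hK : 0 < K) (hη : 0 < η) :
    ∃ ε : ℝ, 0 < ε ∧ ε ≤ 1 / 3 ∧ (ε / 3) ^ β < η ∧ ε ^ 2 < K * ((ε / 3) ^ β) ^ 2 := by
  have h1 : Tendsto (fun x : ℝ => x ^ β) (𝓝[>] 0) (𝓝 0) := by
    have := (Real.continuousAt_rpow_const (0 : ℝ) β (Or.inr hβ.le)).tendsto
    rw [Real.zero_rpow hβ.ne'] at this
    exact this.mono_left nhdsWithin_le_nhds
  have h2 : Tendsto (fun x : ℝ => x ^ (2 - 2 * β)) (𝓝[>] 0) (𝓝 0) := by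
    have h3 : 0 < 2 - 2 * β := by linarith
    have := (Real.continuousAt_rpow_const (0 : ℝ) (2 - 2 * β) (Or.inr h3.le)).tendsto
    rw [Real.zero_rpow h3.ne'] at this
    exact this.mono_left nhdsWithin_le_nhds
  have h4 : ∀ᶠ x in 𝓝[>] (0 : ℝ), x ^ β < η := h1.eventually (gt_mem_nhds hη)
  have h5 : ∀ᶠ x in 𝓝[>] (0 : ℝ), x ^ (2 - 2 * β) < K / 9 := h2.eventually (gt_mem_nhds (by positivity))
  have h6 : ∀ᶠ x in 𝓝[>] (0 : ℝ), x < 1 / 9 := (gt_mem_nhds (by norm_num : (0 : ℝ) < 1 / 9)).filter_mono nhdsWithin_le_nhds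
  have h7 : ∀ᶠ x in 𝓝[>] (0 : ℝ), 0 < x := eventually_mem_nhdsWithin
  obtain ⟨x, hx4, hx5, hx6, hx7⟩ := (h4.and (h5.and (h6.and h7))).exists
  refine ⟨3 * x, by positivity, by linarith, ?_, ?_⟩
  · rw [mul_div_cancel_left₀ _ (by norm_num : (3 : ℝ) ≠ 0)]; exact hx4
  · rw [mul_div_cancel_left₀ _ (by norm_num : (3 : ℝ) ≠ 0)]
    have e1 : x ^ 2 = x ^ (2 - 2 * β) * (x ^ β) ^ 2 := by
      rw [← Real.rpow_natCast (x ^ β) 2, ← Real.rpow_mul hx7.le, ← Real.rpow_add hx7]
      rw [← Real.rpow_natCast x 2]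
      congr 1
      push_cast; ring
    have h8 : 0 < (x ^ β) ^ 2 := by positivity
    calc (3 * x) ^ 2 = 9 * (x ^ (2 - 2 * β) * (x ^ β) ^ 2) := by rw [← e1]; ring
      _ < 9 * ((K / 9) * (x ^ β) ^ 2) := by
          have := mul_lt_mul_of_pos_right hx5 h8
          linarith
      _ = K * (x ^ β) ^ 2 := by ring

/-- A sector with vertex inside `Δ_r` is not extremal. -/
lemma sector_inside {β d r : ℝ} (hβ : 0 < β) (hβ1 : β < 1) (hd : 0 < d) (hdr : d < r) (hr : r ≤ 1)
    (hβd : 1 ≤ 2 * β * d) :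
    volume (ball (0 : ℂ) r \ Sector (Real.tan (β * (Real.pi / 2))) d) < Ac r := by
  obtain ⟨hα0, hα1⟩ := alpha_bounds hβ hβ1
  set α := β * (Real.pi / 2) with hα
  have hcos : 0 < Real.cos α := Real.cos_pos_of_mem_Ioo ⟨by linarith, hα1⟩
  have hcos1 : Real.cos α ≤ 1 := Real.cos_le_one α
  have hm : 0 < Real.tan α := Real.tan_pos_of_pos_of_lt_pi_div_two hα0 hα1
  set m := Real.tan α with hmdef
  have hr0 : 0 < r := by linarith
  obtain ⟨ε, hε, hε1, hη, hK⟩ := exists_eps (K := m * (d * Real.cos α) ^ 2 / 32)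
    (η := min 1 ((r - d) / (m * d))) hβ hβ1 (by positivity) (lt_min one_pos (div_pos (by linarith) (by positivity)))
  set p := (ε / 3) ^ β with hp
  have hp0 : 0 < p := by rw [hp]; positivity
  have hp1 : p < 1 := lt_of_lt_of_le hη (min_le_left _ _)
  have hp2 : p * (m * d) < r - d := by
    have := lt_of_lt_of_le hη (min_le_right _ _)
    rwa [lt_div_iff₀ (by positivity)] at this
  set δ := d * (p * Real.cos α) with hδ
  have hδ0 : 0 < δ := by rw [hδ]; positivity
  have hδd : δ < d := by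
    have : p * Real.cos α < 1 := by
      calc p * Real.cos α ≤ p * 1 := mul_le_mul_of_nonneg_left hcos1 hp0.le
        _ < 1 := by linarith
    rw [hδ]
    nlinarith
  have hδm : d + m * δ < r := by
    have h1 : m * δ ≤ p * (m * d) := by
      rw [hδ]
      have := mul_le_mul_of_nonneg_left hcos1 (show 0 ≤ p * (m * d) by positivity)
      linarith
    linarith
  have hεδ : 32 * ε ^ 2 < m * δ ^ 2 := by
    have e : m * δ ^ 2 = 32 * (m * (d * Real.cos α) ^ 2 / 32 * p ^ 2) := by rw [hδ]; ring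
    rw [e]; linarith
  set D := Sector m d with hD
  set D' := D ∩ {w : ℂ | -d + δ < w.re} with hD'
  have hDo : IsOpen D := sector_open m d
  have hD'o : IsOpen D' := hDo.inter (isOpen_lt continuous_const Complex.continuous_re)
  have hD'c : Convex ℝ D' := by
    apply (sector_convex m d).inter
    have : {w : ℂ | -d + δ < w.re} = Complex.reLm ⁻¹' (Ioi (-d + δ)) := rfl
    rw [this]
    exact (convex_Ioi _).linear_preimage _
  have h0D' : (0 : ℂ) ∈ D' := by
    refine ⟨?_, ?_⟩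
    · show |(0 : ℂ).im| < m * ((0 : ℂ).re + d)
      simp; positivity
    · show -d + δ < (0 : ℂ).re
      simp; linarith
  have hne : D' ≠ univ := by
    intro h
    have h1 : ((-d : ℝ) : ℂ) ∈ D' := by rw [h]; exact mem_univ _
    have h2 : -d + δ < ((-d : ℝ) : ℂ).re := h1.2
    rw [Complex.ofReal_re] at h2
    linarith
  set ρ := 1 - 2 * ε ^ 2 with hρ
  have hε2 : ε ^ 2 ≤ 1 / 9 := by nlinarith
  have hρ0 : 0 < ρ := by rw [hρ]; linarith
  have hρ1 : ρ ≤ 1 := by rw [hρ]; linarith [sq_nonneg ε]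
  have hAc := Ac_ge hD'o hD'c h0D' hne (h := hmap β d ε) (hmap_diff hε.le)
    (fun z hz => ⟨hmap_maps hβ hβ1 hd hε.le hz, hmap_corner hβ hβ1 hd hε hε1 hz⟩)
    (hmap_zero hε.le) hρ0 (hmap_deriv_ge hε.le hε1 hβd) r
  refine lt_of_lt_of_le ?_ hAc
  -- measures
  set B := ball (0 : ℂ) r with hB
  have hBfin : volume B ≠ ⊤ := measure_ball_lt_top.ne
  set E := {w : ℂ | (ρ : ℂ) * w ∈ D'} with hE
  have hEo : IsOpen E := hD'o.preimage (continuous_const.mul continuous_id)
  -- rectangle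
  set Q := {w : ℂ | w.re ∈ Ioo (-d + δ / 2) (-d + δ) ∧ w.im ∈ Ioo (-(m * δ / 2)) (m * δ / 2)} with hQ
  have hQvol : volume.real Q = δ / 2 * (m * δ) := by
    rw [measureReal_def, hQ, volume_rect, ENNReal.toReal_mul, ENNReal.toReal_ofReal (by linarith),
      ENNReal.toReal_ofReal (by have : 0 < m * δ := by positivity
                                linarith)]
    ring
  have hQm : MeasurableSet Q := by
    have : IsOpen Q := by
      apply IsOpen.inter
      · exact isOpen_Ioo.preimage Complex.continuous_re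
      · exact isOpen_Ioo.preimage Complex.continuous_im
    exact this.measurableSet
  have hQD : Q ⊆ B ∩ D := by
    intro w hw
    obtain ⟨⟨h1, h2⟩, h3, h4⟩ := hw
    have h5 : |w.im| < m * δ / 2 := abs_lt.mpr ⟨h3, h4⟩
    refine ⟨?_, ?_⟩
    · rw [hB, mem_ball_zero_iff]
      have h6 : |w.re| ≤ d := abs_le.mpr ⟨by linarith, by linarith⟩
      calc ‖w‖ ≤ |w.re| + |w.im| := Complex.norm_le_abs_re_add_abs_im w
        _ < r := by
            have : 0 < m * δ := by positivity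
            linarith
    · show |w.im| < m * (w.re + d)
      have h6 : m * (δ / 2) < m * (w.re + d) := mul_lt_mul_of_pos_left (by linarith) hm
      linarith
  have hQD' : Disjoint (B ∩ D') Q := by
    rw [Set.disjoint_left]
    intro w hw hwQ
    have h1 : -d + δ < w.re := hw.2.2
    linarith [hwQ.1.2]
  have hfin : ∀ X : Set ℂ, X ⊆ B → volume X ≠ ⊤ := fun X hX =>
    ((measure_mono hX).trans_lt measure_ball_lt_top).ne
  have hb1 : volume.real (B ∩ D') + volume.real Q ≤ volume.real (B ∩ D) := by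
    rw [← measureReal_union hQD' hQm (hfin _ inter_subset_left) (hfin _ (hQD.trans inter_subset_left))]
    apply measureReal_mono _ (hfin _ inter_subset_left)
    exact union_subset (inter_subset_inter_right _ inter_subset_left) hQD
  have hb2 : volume.real (B ∩ E) ≤ volume.real (B ∩ D') / ρ ^ 2 := by
    have hsub : B ∩ E ⊆ (fun x : ℂ => ρ • x) ⁻¹' (B ∩ D') := by
      intro w hw
      refine ⟨?_, ?_⟩
      · show ρ • w ∈ B
        have := hw.1
        rw [hB, mem_ball_zero_iff] at this ⊢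
        rw [norm_smul, Real.norm_of_nonneg hρ0.le]
        calc ρ * ‖w‖ ≤ 1 * ‖w‖ := mul_le_mul_of_nonneg_right hρ1 (norm_nonneg _)
          _ < r := by rw [one_mul]; exact this
      · show ρ • w ∈ D'
        rw [Complex.real_smul]
        exact hw.2
    have hsm := Measure.addHaar_preimage_smul (volume : Measure ℂ) hρ0.ne' (B ∩ D')
    rw [Complex.finrank_real_complex] at hsm
    have h1 : volume.real ((fun x : ℂ => ρ • x) ⁻¹' (B ∩ D')) = volume.real (B ∩ D') / ρ ^ 2 := by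
      rw [measureReal_def, hsm, ENNReal.toReal_mul, ENNReal.toReal_ofReal (abs_nonneg _),
        abs_of_pos (by positivity), measureReal_def]
      ring
    rw [← h1]
    have h2 : volume ((fun x : ℂ => ρ • x) ⁻¹' (B ∩ D')) ≠ ⊤ := by
      rw [hsm]
      exact ENNReal.mul_ne_top ENNReal.ofReal_ne_top (hfin _ inter_subset_left)
    exact measureReal_mono hsub h2
  have hV : volume.real (B ∩ D) ≤ 4 := by
    have h1 : volume.real (B ∩ D) ≤ volume.real B := measureReal_mono inter_subset_left hBfin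
    have h2 : volume.real B = r ^ 2 * Real.pi := by
      rw [measureReal_def, hB, Complex.volume_ball, ENNReal.toReal_mul, ENNReal.toReal_pow,
        ENNReal.toReal_ofReal hr0.le]
      simp
    have h3 : r ^ 2 ≤ 1 := pow_le_one₀ hr0.le hr
    have h4 := Real.pi_le_four
    have h5 : r ^ 2 * Real.pi ≤ 1 * 4 := mul_le_mul h3 h4 Real.pi_pos.le (by norm_num)
    linarith
  have hkey : volume.real (B ∩ E) < volume.real (B ∩ D) := by
    refine lt_of_le_of_lt hb2 ?_
    rw [div_lt_iff₀ (by positivity)]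
    have h1 : 1 - 4 * ε ^ 2 ≤ ρ ^ 2 := by rw [hρ]; nlinarith [sq_nonneg (ε ^ 2)]
    have h2 : volume.real (B ∩ D) * (1 - 4 * ε ^ 2) ≤ volume.real (B ∩ D) * ρ ^ 2 :=
      mul_le_mul_of_nonneg_left h1 measureReal_nonneg
    have h3 : volume.real (B ∩ D) * (4 * ε ^ 2) ≤ 4 * (4 * ε ^ 2) :=
      mul_le_mul_of_nonneg_right hV (by positivity)
    rw [hQvol] at hb1
    have e : δ / 2 * (m * δ) = m * δ ^ 2 / 2 := by ring
    rw [e] at hb1
    linarith
  have hdiff : ∀ X : Set ℂ, IsOpen X → volume.real (B \ X) = volume.real B - volume.real (B ∩ X) := by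
    intro X hX
    have h1 : B \ X = B \ (B ∩ X) := by rw [sdiff_self_inter]
    rw [h1, measureReal_sdiff inter_subset_left (measurableSet_ball.inter hX.measurableSet) hBfin]
  have hfinal : volume.real (B \ D) < volume.real (B \ E) := by
    rw [hdiff D hDo, hdiff E hEo]
    linarith
  rw [measureReal_def, measureReal_def] at hfinal
  exact (ENNReal.toReal_lt_toReal (hfin _ sdiff_subset) (hfin _ sdiff_subset)).mp hfinal

/-! ### Comparison of areas -/

lemma volume_line (c : ℝ) : volume {w : ℂ | w.re = c} = 0 := by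
  have h := Complex.volume_preserving_equiv_real_prod.measure_preimage
    (s := {c} ×ˢ univ) (((measurableSet_singleton c).prod MeasurableSet.univ).nullMeasurableSet)
  rw [Measure.volume_eq_prod, Measure.prod_prod, Real.volume_singleton, zero_mul] at h
  rw [← h]
  congr 1
  ext w
  simp [Complex.measurableEquivRealProd]

/-- the cap cut off by the half-plane -/
def Hs (r : ℝ) : Set ℂ := {w : ℂ | w ∈ ball (0 : ℂ) r ∧ w.re < -1 / 2}

lemma Hs_open (r : ℝ) : IsOpen (Hs r) :=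
  isOpen_ball.inter (isOpen_lt Complex.continuous_re continuous_const)

lemma volume_cap (r : ℝ) : volume {w : ℂ | w ∈ ball (0 : ℂ) r ∧ w.re ≤ -1 / 2} ≤ volume (Hs r) := by
  have h : {w : ℂ | w ∈ ball (0 : ℂ) r ∧ w.re ≤ -1 / 2} ⊆ Hs r ∪ {w : ℂ | w.re = -1 / 2} := by
    rintro w ⟨h1, h2⟩
    rcases h2.lt_or_eq with h | h
    · exact Or.inl ⟨h1, h⟩
    · exact Or.inr h
  calc _ ≤ volume (Hs r ∪ {w : ℂ | w.re = -1 / 2}) := measure_mono h
    _ ≤ volume (Hs r) + volume {w : ℂ | w.re = -1 / 2} := measure_union_le _ _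
    _ = volume (Hs r) := by rw [volume_line, add_zero]

lemma tan_sq : Real.tan (3 / 4 * (Real.pi / 2)) ^ 2 < 584 / 100 ∧ 0 < Real.tan (3 / 4 * (Real.pi / 2)) := by
  have hpi := Real.pi_pos
  have e1 : 3 / 4 * (Real.pi / 2) = Real.pi / 2 - Real.pi / 8 := by ring
  have hs : 0 < Real.sin (Real.pi / 8) := Real.sin_pos_of_pos_of_lt_pi (by linarith) (by linarith)
  have hsq : Real.sin (Real.pi / 8) ^ 2 = 1 / 2 - Real.sqrt 2 / 4 := by
    rw [Real.sin_sq_eq_half_sub]
    have : 2 * (Real.pi / 8) = Real.pi / 4 := by ring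
    rw [this, Real.cos_pi_div_four]; ring
  have hcq : Real.cos (Real.pi / 8) ^ 2 = 1 / 2 + Real.sqrt 2 / 4 := by
    have := Real.sin_sq_add_cos_sq (Real.pi / 8)
    linarith
  have h2 : Real.sqrt 2 < 1415 / 1000 := by
    rw [Real.sqrt_lt' (by norm_num)]; norm_num
  refine ⟨?_, Real.tan_pos_of_pos_of_lt_pi_div_two (by positivity) (by linarith)⟩
  rw [e1, Real.tan_eq_sin_div_cos, Real.sin_pi_div_two_sub, Real.cos_pi_div_two_sub, div_pow,
    div_lt_iff₀ (by positivity), hsq, hcq]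
  linarith

/-- The half-plane is beaten by the sector of half-angle `3π/8`. -/
lemma half_plane_lt {r : ℝ} (hr : 95 / 100 ≤ r) : volume (Hs r) < Ac r := by
  obtain ⟨hm1, hm0⟩ := tan_sq
  have hβ : (0 : ℝ) < 3 / 4 := by norm_num
  have hβ1 : (3 / 4 : ℝ) < 1 := by norm_num
  have hd : (0 : ℝ) < 2 / 3 := by norm_num
  set m := Real.tan (3 / 4 * (Real.pi / 2)) with hm
  set D := Sector m (2 / 3) with hD
  have hDo : IsOpen D := sector_open _ _
  have h0 : (0 : ℂ) ∈ D := by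
    show |(0 : ℂ).im| < m * ((0 : ℂ).re + 2 / 3)
    simp; positivity
  have hne : D ≠ univ := by
    intro h
    have h1 : ((-1 : ℝ) : ℂ) ∈ D := by rw [h]; exact mem_univ _
    have h2 : |((-1 : ℝ) : ℂ).im| < m * (((-1 : ℝ) : ℂ).re + 2 / 3) := h1
    rw [Complex.ofReal_im, Complex.ofReal_re, abs_zero] at h2
    nlinarith
  have hAc := Ac_ge hDo (sector_convex _ _) h0 hne (h := hmap (3 / 4) (2 / 3) 0) (hmap_diff le_rfl)
    (hmap_maps hβ hβ1 hd le_rfl) (hmap_zero le_rfl) (ρ := 1) one_pos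
    (by
      have := hmap_deriv_ge (β := 3 / 4) (d := 2 / 3) (ε := 0) le_rfl (by norm_num) (by norm_num)
      simpa using this) r
  have e1 : {w : ℂ | ((1 : ℝ) : ℂ) * w ∈ D} = D := by
    ext w; simp
  rw [e1] at hAc
  refine lt_of_lt_of_le ?_ hAc
  set B := ball (0 : ℂ) r with hB
  have hmlt : m < 243 / 100 := by nlinarith
  have hBsq : ∀ w : ℂ, w.re ^ 2 + w.im ^ 2 < 9025 / 10000 → w ∈ B := by
    intro w hw
    rw [hB, mem_ball_zero_iff]
    have h1 : ‖w‖ ^ 2 = w.re ^ 2 + w.im ^ 2 := by rw [Complex.sq_norm, Complex.normSq_apply]; ring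
    by_contra hcon
    push Not at hcon
    have h2 : (95 / 100 : ℝ) ^ 2 ≤ ‖w‖ ^ 2 := pow_le_pow_left₀ (by norm_num) (hr.trans hcon) 2
    rw [h1] at h2
    norm_num at h2
    linarith
  -- the two halves of the tip and their reflections
  set Tp := {w : ℂ | w ∈ Hs r ∩ D ∧ 0 ≤ w.im} with hTp
  set Tm := {w : ℂ | w ∈ Hs r ∩ D ∧ w.im < 0} with hTm
  have hTpm : MeasurableSet Tp :=
    ((Hs_open r).inter hDo).measurableSet.inter (isClosed_le continuous_const Complex.continuous_im).measurableSet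
  have hTmm : MeasurableSet Tm :=
    ((Hs_open r).inter hDo).measurableSet.inter (isOpen_lt Complex.continuous_im continuous_const).measurableSet
  set cp : ℂ := ⟨-1, m / 3⟩ with hcp
  set cm : ℂ := ⟨-1, -(m / 3)⟩ with hcm
  set Sp := {w : ℂ | cp - w ∈ Tp} with hSp
  set Sm := {w : ℂ | cm - w ∈ Tm} with hSm
  have hvp : volume Sp = volume Tp := by
    have := (Measure.measurePreserving_sub_left (volume : Measure ℂ) cp).measure_preimage hTpm.nullMeasurableSet
    exact this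
  have hvm : volume Sm = volume Tm := by
    have := (Measure.measurePreserving_sub_left (volume : Measure ℂ) cm).measure_preimage hTmm.nullMeasurableSet
    exact this
  have hSpm : MeasurableSet Sp := hTpm.preimage (measurable_const.sub measurable_id)
  have hSmm : MeasurableSet Sm := hTmm.preimage (measurable_const.sub measurable_id)
  have hSpf : ∀ w ∈ Sp, -1 / 2 < w.re ∧ w.re < -1 / 3 ∧ m / 6 < w.im ∧ w.im ≤ m / 3 ∧ m * (w.re + 2 / 3) < w.im := by
    rintro w ⟨⟨⟨_, h1⟩, h2⟩, h3⟩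
    have h4 : |(cp - w).im| < m * ((cp - w).re + 2 / 3) := h2
    simp only [Complex.sub_re, Complex.sub_im, hcp] at h1 h3 h4
    rw [abs_of_nonneg h3] at h4
    have h5 : 0 < m * (-1 - w.re + 2 / 3) := by linarith
    have h6 : 0 < -1 - w.re + 2 / 3 := (mul_pos_iff_of_pos_left hm0).mp h5
    have h7 : m * (-1 - w.re + 2 / 3) < m * (1 / 6) := mul_lt_mul_of_pos_left (by linarith) hm0
    refine ⟨by linarith, by linarith, by linarith, by linarith, by linarith⟩
  have hSmf : ∀ w ∈ Sm, -1 / 2 < w.re ∧ w.re < -1 / 3 ∧ m / 6 < -w.im ∧ -w.im ≤ m / 3 ∧ m * (w.re + 2 / 3) < -w.im := by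
    rintro w ⟨⟨⟨_, h1⟩, h2⟩, h3⟩
    have h4 : |(cm - w).im| < m * ((cm - w).re + 2 / 3) := h2
    simp only [Complex.sub_re, Complex.sub_im, hcm] at h1 h3 h4
    rw [abs_of_neg h3] at h4
    have h5 : 0 < m * (-1 - w.re + 2 / 3) := by linarith
    have h6 : 0 < -1 - w.re + 2 / 3 := (mul_pos_iff_of_pos_left hm0).mp h5
    have h7 : m * (-1 - w.re + 2 / 3) < m * (1 / 6) := mul_lt_mul_of_pos_left (by linarith) hm0
    refine ⟨by linarith, by linarith, by linarith, by linarith, by linarith⟩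
  have hSpB : Sp ⊆ B \ D := by
    intro w hw
    obtain ⟨h1, h2, h3, h4, h5⟩ := hSpf w hw
    refine ⟨hBsq w ?_, ?_⟩
    · have h6 : w.im ^ 2 ≤ (m / 3) ^ 2 := pow_le_pow_left₀ (by linarith) h4 2
      nlinarith
    · intro hwD
      have h6 : |w.im| < m * (w.re + 2 / 3) := hwD
      linarith [le_abs_self w.im]
  have hSmB : Sm ⊆ B \ D := by
    intro w hw
    obtain ⟨h1, h2, h3, h4, h5⟩ := hSmf w hw
    refine ⟨hBsq w ?_, ?_⟩
    · have h6 : (-w.im) ^ 2 ≤ (m / 3) ^ 2 := pow_le_pow_left₀ (by linarith) h4 2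
      nlinarith
    · intro hwD
      have h6 : |w.im| < m * (w.re + 2 / 3) := hwD
      linarith [neg_le_abs w.im]
  set Q := {w : ℂ | w.re ∈ Ioo (-46 / 100 : ℝ) (-45 / 100) ∧ w.im ∈ Ioo (81 / 100 : ℝ) (82 / 100)} with hQ
  have hQo : IsOpen Q := by
    apply IsOpen.inter
    · exact isOpen_Ioo.preimage Complex.continuous_re
    · exact isOpen_Ioo.preimage Complex.continuous_im
  have hQv : 0 < volume Q := by
    rw [hQ, volume_rect]
    apply ENNReal.mul_pos
    · simp; norm_num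
    · simp; norm_num
  have hQB : Q ⊆ B \ D := by
    rintro w ⟨⟨h1, h2⟩, h3, h4⟩
    refine ⟨hBsq w (by nlinarith), ?_⟩
    intro hwD
    have h6 : |w.im| < m * (w.re + 2 / 3) := hwD
    have h7 := le_abs_self w.im
    have h8 : m * (w.re + 2 / 3) < 243 / 100 * (22 / 100) := by
      apply mul_lt_mul hmlt (by linarith) (by linarith) (by norm_num)
    norm_num at h8
    linarith
  set W := Hs r \ D with hW
  have hWm : MeasurableSet W := (Hs_open r).measurableSet.diff hDo.measurableSet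
  have hWB : W ⊆ B \ D := fun w hw => ⟨hw.1.1, hw.2⟩
  -- disjointness
  have d1 : Disjoint Sp Sm := by
    rw [Set.disjoint_left]; intro w hw hw'
    linarith [(hSpf w hw).2.2.1, (hSmf w hw').2.2.1]
  have d2 : Disjoint (Sp ∪ Sm) W := by
    rw [Set.disjoint_left]; intro w hw hw'
    have h1 : w.re < -1 / 2 := hw'.1.2
    rcases hw with h | h
    · linarith [(hSpf w h).1]
    · linarith [(hSmf w h).1]
  have d3 : Disjoint ((Sp ∪ Sm) ∪ W) Q := by
    rw [Set.disjoint_left]; intro w hw hw'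
    obtain ⟨⟨h1, h2⟩, h3, h4⟩ := hw'
    rcases hw with (h | h) | h
    · linarith [(hSpf w h).2.2.2.1]
    · linarith [(hSmf w h).2.2.1]
    · have h5 : w.re < -1 / 2 := h.1.2
      linarith
  have hHs : volume (Hs r) = volume Tp + volume Tm + volume W := by
    have h1 : Hs r = (Tp ∪ Tm) ∪ W := by
      ext w
      constructor
      · intro hw
        by_cases hwD : w ∈ D
        · left
          rcases le_or_gt 0 w.im with h | h
          · left; exact ⟨⟨hw, hwD⟩, h⟩
          · right; exact ⟨⟨hw, hwD⟩, h⟩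
        · right; exact ⟨hw, hwD⟩
      · rintro ((h | h) | h)
        · exact h.1.1
        · exact h.1.1
        · exact h.1
    have d4 : Disjoint Tp Tm := by
      rw [Set.disjoint_left]; intro w hw hw'
      have h2 : 0 ≤ w.im := hw.2
      have h3 : w.im < 0 := hw'.2
      linarith
    have d5 : Disjoint (Tp ∪ Tm) W := by
      rw [Set.disjoint_left]; intro w hw hw'
      rcases hw with h | h
      · exact hw'.2 h.1.2
      · exact hw'.2 h.1.2
    rw [h1, measure_union d5 hWm, measure_union d4 hTmm]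
  have hfinH : volume (Hs r) ≠ ⊤ :=
    ((measure_mono (fun w hw => hw.1)).trans_lt (measure_ball_lt_top (μ := volume) (x := (0 : ℂ)) (r := r))).ne
  calc volume (Hs r) < volume (Hs r) + volume Q := ENNReal.lt_add_right hfinH hQv.ne'
    _ = volume (((Sp ∪ Sm) ∪ W) ∪ Q) := by
        rw [measure_union d3 hQo.measurableSet, measure_union d2 hWm, measure_union d1 hSmm, hvp, hvm, hHs]
    _ ≤ volume (B \ D) := measure_mono (union_subset (union_subset (union_subset hSpB hSmB) hWB) hQB)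

/-! ### Sectors with vertex outside the disc -/

/-- caps of the disc at distance `r / √2` in direction `n` -/
def Cap (r : ℝ) (n : ℂ) : Set ℂ := {w : ℂ | w ∈ ball (0 : ℂ) r ∧ r * (Real.sqrt 2 / 2) ≤ ((starRingEnd ℂ) n * w).re}

lemma Cap_meas (r : ℝ) (n : ℂ) : MeasurableSet (Cap r n) := by
  apply measurableSet_ball.inter
  exact (isClosed_le continuous_const (Complex.continuous_re.comp (continuous_const.mul continuous_id))).measurableSet

/-- multiplication by a unimodular number preserves area -/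
lemma mp_rot {n : ℂ} (hn : ‖n‖ = 1) : MeasurePreserving (fun w : ℂ => n * w) volume volume := by
  have h := (rotation ⟨n, by simp [Submonoid.unitSphere, hn]⟩).measurePreserving
  exact h

lemma volume_Cap (r : ℝ) {n : ℂ} (hn : ‖n‖ = 1) : volume (Cap r n) = volume (Cap r 1) := by
  have h := (mp_rot hn).measure_preimage (s := Cap r n) (Cap_meas r n).nullMeasurableSet
  rw [← h]
  congr 1
  ext w
  have e : (starRingEnd ℂ) n * (n * w) = w := by
    rw [← mul_assoc, mul_comm ((starRingEnd ℂ) n), Complex.mul_conj, Complex.normSq_eq_norm_sq, hn]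
    simp
  show (n * w ∈ ball (0 : ℂ) r ∧ r * (Real.sqrt 2 / 2) ≤ ((starRingEnd ℂ) n * (n * w)).re) ↔
    (w ∈ ball (0 : ℂ) r ∧ r * (Real.sqrt 2 / 2) ≤ ((starRingEnd ℂ) 1 * w).re)
  rw [e, mem_ball_zero_iff, mem_ball_zero_iff, norm_mul, hn, one_mul, map_one, one_mul]

lemma cap_re_one {r : ℝ} {w : ℂ} : w ∈ Cap r 1 ↔ w ∈ ball (0 : ℂ) r ∧ r * (Real.sqrt 2 / 2) ≤ w.re := by
  show _ ∧ r * (Real.sqrt 2 / 2) ≤ ((starRingEnd ℂ) 1 * w).re ↔ _
  rw [map_one, one_mul]

lemma cap_re_neg {r : ℝ} {w : ℂ} : w ∈ Cap r (-1) ↔ w ∈ ball (0 : ℂ) r ∧ r * (Real.sqrt 2 / 2) ≤ -w.re := by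
  show _ ∧ r * (Real.sqrt 2 / 2) ≤ ((starRingEnd ℂ) (-1) * w).re ↔ _
  rw [map_neg, map_one, neg_one_mul, Complex.neg_re]

lemma cap_im_one {r : ℝ} {w : ℂ} : w ∈ Cap r I ↔ w ∈ ball (0 : ℂ) r ∧ r * (Real.sqrt 2 / 2) ≤ w.im := by
  show _ ∧ r * (Real.sqrt 2 / 2) ≤ ((starRingEnd ℂ) I * w).re ↔ _
  rw [Complex.conj_I]; simp

lemma cap_im_neg {r : ℝ} {w : ℂ} : w ∈ Cap r (-I) ↔ w ∈ ball (0 : ℂ) r ∧ r * (Real.sqrt 2 / 2) ≤ -w.im := by
  show _ ∧ r * (Real.sqrt 2 / 2) ≤ ((starRingEnd ℂ) (-I) * w).re ↔ _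
  rw [map_neg, Complex.conj_I]; simp

lemma mem_ball_sq {r : ℝ} (hr : 0 < r) {w : ℂ} : w ∈ ball (0 : ℂ) r ↔ w.re ^ 2 + w.im ^ 2 < r ^ 2 := by
  have h1 : ‖w‖ ^ 2 = w.re ^ 2 + w.im ^ 2 := by rw [Complex.sq_norm, Complex.normSq_apply]; ring
  rw [mem_ball_zero_iff, ← h1]
  exact (sq_lt_sq₀ (norm_nonneg _) hr.le).symm

/-- four caps and a square fill the disc -/
lemma four_caps {r : ℝ} (hr : 0 < r) : 4 * volume.real (Cap r 1) + 2 * r ^ 2 ≤ r ^ 2 * Real.pi := by
  set s := r * (Real.sqrt 2 / 2) with hs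
  have h2 : Real.sqrt 2 ^ 2 = 2 := Real.sq_sqrt (by norm_num)
  have hs0 : 0 < s := by rw [hs]; positivity
  have hs2 : 2 * s ^ 2 = r ^ 2 := by rw [hs]; nlinarith
  set Q := {w : ℂ | w.re ∈ Ioo (-s) s ∧ w.im ∈ Ioo (-s) s} with hQ
  have hQo : IsOpen Q := by
    apply IsOpen.inter
    · exact isOpen_Ioo.preimage Complex.continuous_re
    · exact isOpen_Ioo.preimage Complex.continuous_im
  have hQv : volume.real Q = 2 * r ^ 2 := by
    rw [measureReal_def, hQ, volume_rect, ENNReal.toReal_mul, ENNReal.toReal_ofReal (by linarith)]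
    nlinarith
  have hfin : ∀ X : Set ℂ, X ⊆ ball (0 : ℂ) r → volume X ≠ ⊤ := fun X hX =>
    ((measure_mono hX).trans_lt measure_ball_lt_top).ne
  have hc : ∀ n, Cap r n ⊆ ball (0 : ℂ) r := fun n w hw => hw.1
  have hQB : Q ⊆ ball (0 : ℂ) r := by
    rintro w ⟨⟨h1, h3⟩, h4, h5⟩
    rw [mem_ball_sq hr]
    have h6 : w.re ^ 2 < s ^ 2 := sq_lt_sq' h1 h3
    have h7 : w.im ^ 2 < s ^ 2 := sq_lt_sq' h4 h5
    linarith
  have d1 : Disjoint (Cap r 1) (Cap r (-1)) := by
    rw [Set.disjoint_left]; intro w hw hw'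
    rw [cap_re_one] at hw; rw [cap_re_neg] at hw'
    linarith [hw.2, hw'.2]
  have d2 : Disjoint (Cap r I) (Cap r (-I)) := by
    rw [Set.disjoint_left]; intro w hw hw'
    rw [cap_im_one] at hw; rw [cap_im_neg] at hw'
    linarith [hw.2, hw'.2]
  have d3 : Disjoint (Cap r 1 ∪ Cap r (-1)) (Cap r I ∪ Cap r (-I)) := by
    rw [Set.disjoint_left]; intro w hw hw'
    have h3 : s ^ 2 ≤ w.re ^ 2 := by
      rcases hw with h | h
      · rw [cap_re_one] at h
        exact pow_le_pow_left₀ hs0.le h.2 2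
      · rw [cap_re_neg] at h
        have := pow_le_pow_left₀ hs0.le h.2 2
        rwa [neg_sq] at this
    have h4 : s ^ 2 ≤ w.im ^ 2 := by
      rcases hw' with h | h
      · rw [cap_im_one] at h
        exact pow_le_pow_left₀ hs0.le h.2 2
      · rw [cap_im_neg] at h
        have := pow_le_pow_left₀ hs0.le h.2 2
        rwa [neg_sq] at this
    have h5 : w ∈ ball (0 : ℂ) r := by
      rcases hw with h | h
      · exact h.1
      · exact h.1
    rw [mem_ball_sq hr] at h5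
    linarith
  have d4 : Disjoint ((Cap r 1 ∪ Cap r (-1)) ∪ (Cap r I ∪ Cap r (-I))) Q := by
    rw [Set.disjoint_left]; rintro w hw ⟨⟨h1, h3⟩, h4, h5⟩
    rcases hw with (h | h) | (h | h)
    · rw [cap_re_one] at h; linarith [h.2]
    · rw [cap_re_neg] at h; linarith [h.2]
    · rw [cap_im_one] at h; linarith [h.2]
    · rw [cap_im_neg] at h; linarith [h.2]
  have u1 : Cap r 1 ∪ Cap r (-1) ⊆ ball (0 : ℂ) r := union_subset (hc _) (hc _)
  have u2 : Cap r I ∪ Cap r (-I) ⊆ ball (0 : ℂ) r := union_subset (hc _) (hc _)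
  have u3 := union_subset u1 u2
  have u4 := union_subset u3 hQB
  have hsum : volume.real (((Cap r 1 ∪ Cap r (-1)) ∪ (Cap r I ∪ Cap r (-I))) ∪ Q) =
      4 * volume.real (Cap r 1) + 2 * r ^ 2 := by
    rw [measureReal_union d4 hQo.measurableSet (hfin _ u3) (hfin _ hQB),
      measureReal_union d3 ((Cap_meas r I).union (Cap_meas r (-I))) (hfin _ u1) (hfin _ u2),
      measureReal_union d1 (Cap_meas r (-1)) (hfin _ (hc _)) (hfin _ (hc _)),
      measureReal_union d2 (Cap_meas r (-I)) (hfin _ (hc _)) (hfin _ (hc _)), hQv]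
    simp only [measureReal_def]
    rw [volume_Cap r (n := -1) (by simp), volume_Cap r (n := I) (by simp), volume_Cap r (n := -I) (by simp)]
    ring
  rw [← hsum]
  have hB : volume.real (ball (0 : ℂ) r) = r ^ 2 * Real.pi := by
    rw [measureReal_def, Complex.volume_ball, ENNReal.toReal_mul, ENNReal.toReal_pow,
      ENNReal.toReal_ofReal hr.le]
    simp
  rw [← hB]
  exact measureReal_mono u4 measure_ball_lt_top.ne

/-- two caps at distance `r/√2` have smaller area than the cap at distance `1/2` -/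
lemma two_caps {r : ℝ} (hr : 99 / 100 ≤ r) : 2 * volume (Cap r 1) ≤ volume (Hs r) := by
  have hr0 : 0 < r := by linarith
  set s := r * (Real.sqrt 2 / 2) with hs
  have h2 : Real.sqrt 2 ^ 2 = 2 := Real.sq_sqrt (by norm_num)
  have h2a : 1414 / 1000 < Real.sqrt 2 := by
    rw [Real.lt_sqrt (by norm_num)]; norm_num
  have h2b : Real.sqrt 2 < 141422 / 100000 := by
    rw [Real.sqrt_lt' (by norm_num)]; norm_num
  have hs0 : 0 < s := by rw [hs]; positivity
  have hs2 : 2 * s ^ 2 = r ^ 2 := by rw [hs]; nlinarith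
  have hs1 : 1 / 2 < s := by rw [hs]; nlinarith
  set Q := {w : ℂ | w.re ∈ Ioo (-s) (-(1 / 2)) ∧ w.im ∈ Ioo (-s) s} with hQ
  have hQo : IsOpen Q := by
    apply IsOpen.inter
    · exact isOpen_Ioo.preimage Complex.continuous_re
    · exact isOpen_Ioo.preimage Complex.continuous_im
  have hQv : volume.real Q = (s - 1 / 2) * (2 * s) := by
    rw [measureReal_def, hQ, volume_rect, ENNReal.toReal_mul, ENNReal.toReal_ofReal (by linarith),
      ENNReal.toReal_ofReal (by linarith)]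
    ring
  have hfin : ∀ X : Set ℂ, X ⊆ ball (0 : ℂ) r → volume X ≠ ⊤ := fun X hX =>
    ((measure_mono hX).trans_lt measure_ball_lt_top).ne
  have hQB : Q ⊆ ball (0 : ℂ) r := by
    rintro w ⟨⟨h1, h3⟩, h4, h5⟩
    rw [mem_ball_sq hr0]
    have h6 : w.re ^ 2 < s ^ 2 := sq_lt_sq' h1 (by linarith)
    have h7 : w.im ^ 2 < s ^ 2 := sq_lt_sq' h4 h5
    linarith
  have hd : Disjoint (Cap r (-1)) Q := by
    rw [Set.disjoint_left]; rintro w hw ⟨⟨h1, h3⟩, h4, h5⟩
    rw [cap_re_neg] at hw; linarith [hw.2]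
  have hsub : Cap r (-1) ∪ Q ⊆ Hs r := by
    apply union_subset
    · intro w hw
      rw [cap_re_neg] at hw
      exact ⟨hw.1, by linarith [hw.2]⟩
    · intro w hw
      exact ⟨hQB hw, by linarith [hw.1.2]⟩
  have hHsB : Hs r ⊆ ball (0 : ℂ) r := fun w hw => hw.1
  have hcB : Cap r (-1) ⊆ ball (0 : ℂ) r := fun w hw => hw.1
  have h3 : volume.real (Cap r (-1)) + volume.real Q ≤ volume.real (Hs r) := by
    rw [← measureReal_union hd hQo.measurableSet (hfin _ hcB) (hfin _ hQB)]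
    exact measureReal_mono hsub (hfin _ hHsB)
  have h4 : volume.real (Cap r (-1)) = volume.real (Cap r 1) := by
    rw [measureReal_def, measureReal_def, volume_Cap r (n := -1) (by simp)]
  rw [h4, hQv] at h3
  have h5 := four_caps hr0
  have hpi := Real.pi_lt_d4
  have h6 : 2 * volume.real (Cap r 1) ≤ volume.real (Hs r) := by
    have h7 : r ^ 2 * Real.pi ≤ r ^ 2 * 3.1416 := mul_le_mul_of_nonneg_left hpi.le (by positivity)
    have h8 : (s - 1 / 2) * (2 * s) = r ^ 2 - s := by linarith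
    rw [h8] at h3
    have h9 : s ≤ r * (141422 / 200000) := by
      rw [hs]; apply mul_le_mul_of_nonneg_left _ hr0.le; linarith
    have h10 : volume.real (Cap r 1) ≤ r ^ 2 - s := by
      nlinarith
    linarith
  have hc1B : Cap r 1 ⊆ ball (0 : ℂ) r := fun w hw => hw.1
  have e : (2 * volume (Cap r 1)).toReal = 2 * volume.real (Cap r 1) := by
    rw [ENNReal.toReal_mul, measureReal_def]; simp
  rw [← e, measureReal_def] at h6
  exact (ENNReal.toReal_le_toReal (ENNReal.mul_ne_top (by simp) (hfin _ hc1B)) (hfin _ hHsB)).mp h6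

/-- A sector with vertex outside `Δ_r` is not extremal. -/
lemma sector_outside {β d r : ℝ} (hβ : 0 < β) (hβ1 : β < 1) (hrd : r ≤ d) (hr : 99 / 100 ≤ r)
    (hr1 : r < 1) (hβd : 1 ≤ 2 * β * d) :
    volume (ball (0 : ℂ) r \ Sector (Real.tan (β * (Real.pi / 2))) d) < Ac r := by
  obtain ⟨hα0, hα1⟩ := alpha_bounds hβ hβ1
  set α := β * (Real.pi / 2) with hα
  have hpi := Real.pi_pos
  have hr0 : 0 < r := by linarith
  have hcos : 0 < Real.cos α := Real.cos_pos_of_mem_Ioo ⟨by linarith, hα1⟩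
  have hsin : 0 < Real.sin α := Real.sin_pos_of_pos_of_lt_pi hα0 (by linarith)
  have h2 : 0 < Real.sqrt 2 := by positivity
  -- the distance of the sides from the origin
  have hdist : r * (Real.sqrt 2 / 2) ≤ d * Real.sin α := by
    rcases le_or_gt (Real.pi / 4) α with h | h
    · have h3 : Real.sin (Real.pi / 4) ≤ Real.sin α :=
        Real.sin_le_sin_of_le_of_le_pi_div_two (by linarith) hα1.le h
      rw [Real.sin_pi_div_four] at h3
      exact mul_le_mul hrd h3 (by positivity) (by linarith)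
    · -- concavity of sin
      have hm0 : (0 : ℝ) ∈ Icc 0 Real.pi := ⟨le_rfl, hpi.le⟩
      have hm1 : Real.pi / 4 ∈ Icc 0 Real.pi := ⟨by positivity, by linarith⟩
      have ha0 : 0 ≤ 1 - 4 * α / Real.pi := by rw [sub_nonneg, div_le_one hpi]; linarith
      have hb0 : 0 ≤ 4 * α / Real.pi := by positivity
      have hconc := (StrictConcaveOn.concaveOn strictConcaveOn_sin_Icc).2 hm0 hm1 ha0 hb0 (by ring)
      simp only [smul_eq_mul, mul_zero, Real.sin_zero, zero_add, Real.sin_pi_div_four] at hconc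
      have e : 4 * α / Real.pi * (Real.pi / 4) = α := by field_simp
      rw [e] at hconc
      have e2 : 4 * α / Real.pi = 2 * β := by rw [hα]; field_simp; ring
      rw [e2] at hconc
      have hd0 : 0 < d := by linarith
      have h3 : d * (2 * β * (Real.sqrt 2 / 2)) ≤ d * Real.sin α := mul_le_mul_of_nonneg_left hconc hd0.le
      have h4 : 1 * (Real.sqrt 2 / 2) ≤ 2 * β * d * (Real.sqrt 2 / 2) :=
        mul_le_mul_of_nonneg_right hβd (by positivity)
      have h5 : r * (Real.sqrt 2 / 2) ≤ 1 * (Real.sqrt 2 / 2) := mul_le_mul_of_nonneg_right hr1.le (by positivity)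
      linarith
  set n1 : ℂ := ⟨-Real.sin α, Real.cos α⟩ with hn1
  set n2 : ℂ := ⟨-Real.sin α, -Real.cos α⟩ with hn2
  have hn1n : ‖n1‖ = 1 := by
    have h3 : ‖n1‖ ^ 2 = 1 := by
      rw [Complex.sq_norm, Complex.normSq_apply]
      simp only [hn1]
      have := Real.sin_sq_add_cos_sq α
      linarith
    exact (pow_eq_one_iff_of_nonneg (norm_nonneg _) two_ne_zero).mp h3
  have hn2n : ‖n2‖ = 1 := by
    have h3 : ‖n2‖ ^ 2 = 1 := by
      rw [Complex.sq_norm, Complex.normSq_apply]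
      simp only [hn2]
      have := Real.sin_sq_add_cos_sq α
      linarith
    exact (pow_eq_one_iff_of_nonneg (norm_nonneg _) two_ne_zero).mp h3
  have hsub : ball (0 : ℂ) r \ Sector (Real.tan α) d ⊆ Cap r n1 ∪ Cap r n2 := by
    rintro w ⟨hw1, hw2⟩
    have h3 : Real.tan α * (w.re + d) ≤ |w.im| := not_lt.mp hw2
    have h4 : Real.sin α * (w.re + d) ≤ Real.cos α * |w.im| := by
      have := mul_le_mul_of_nonneg_left h3 hcos.le
      rw [← mul_assoc, mul_comm (Real.cos α) (Real.tan α), Real.tan_mul_cos hcos.ne'] at this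
      exact this
    have e1 : ((starRingEnd ℂ) n1 * w).re = -Real.sin α * w.re + Real.cos α * w.im := by
      rw [Complex.mul_re, Complex.conj_re, Complex.conj_im]
      simp only [hn1]; ring
    have e2 : ((starRingEnd ℂ) n2 * w).re = -Real.sin α * w.re - Real.cos α * w.im := by
      rw [Complex.mul_re, Complex.conj_re, Complex.conj_im]
      simp only [hn2]; ring
    rcases le_or_gt 0 w.im with h | h
    · left
      refine ⟨hw1, ?_⟩
      rw [e1]
      rw [abs_of_nonneg h] at h4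
      linarith
    · right
      refine ⟨hw1, ?_⟩
      rw [e2]
      rw [abs_of_neg h] at h4
      linarith
  calc volume (ball (0 : ℂ) r \ Sector (Real.tan α) d) ≤ volume (Cap r n1 ∪ Cap r n2) := measure_mono hsub
    _ ≤ volume (Cap r n1) + volume (Cap r n2) := measure_union_le _ _
    _ = 2 * volume (Cap r 1) := by rw [volume_Cap r hn1n, volume_Cap r hn2n, two_mul]
    _ ≤ volume (Hs r) := two_caps hr
    _ < Ac r := half_plane_lt (by linarith)

/-! ### Reduction to the normalised position -/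

lemma rot_Sc {f : ℂ → ℂ} (hf : f ∈ Sc) {u : ℂ} (hu : ‖u‖ = 1) :
    (fun z => u * f (u⁻¹ * z)) ∈ Sc ∧
      (fun z => u * f (u⁻¹ * z)) '' ball 0 1 = {w : ℂ | u⁻¹ * w ∈ f '' ball 0 1} := by
  have hu0 : u ≠ 0 := by
    intro h; rw [h, norm_zero] at hu; exact zero_ne_one hu
  have hrot : ∀ z : ℂ, u⁻¹ * z ∈ ball (0 : ℂ) 1 ↔ z ∈ ball (0 : ℂ) 1 := by
    intro z
    rw [mem_ball_zero_iff, mem_ball_zero_iff, norm_mul, norm_inv, hu, inv_one, one_mul]
  have himg : (fun z => u * f (u⁻¹ * z)) '' ball 0 1 = {w : ℂ | u⁻¹ * w ∈ f '' ball 0 1} := by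
    ext w
    constructor
    · rintro ⟨z, hz, rfl⟩
      show u⁻¹ * (u * f (u⁻¹ * z)) ∈ f '' ball 0 1
      rw [inv_mul_cancel_left₀ hu0]
      exact mem_image_of_mem f ((hrot z).mpr hz)
    · rintro ⟨z, hz, hzw⟩
      refine ⟨u * z, ?_, ?_⟩
      · rw [← hrot, inv_mul_cancel_left₀ hu0]; exact hz
      · show u * f (u⁻¹ * (u * z)) = w
        rw [inv_mul_cancel_left₀ hu0, hzw, mul_inv_cancel_left₀ hu0]
  refine ⟨⟨?_, ?_, ?_, ?_, ?_⟩, himg⟩
  · exact (hf.1.comp (by fun_prop) (fun z hz => (hrot z).mpr hz)).const_mul u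
  · intro z hz w hw h
    have h1 : f (u⁻¹ * z) = f (u⁻¹ * w) := mul_left_cancel₀ hu0 h
    have h2 := hf.2.1 ((hrot z).mpr hz) ((hrot w).mpr hw) h1
    exact mul_left_cancel₀ (inv_ne_zero hu0) h2
  · simp [hf.2.2.1]
  · have h2 : HasDerivAt (fun z : ℂ => u⁻¹ * z) (u⁻¹ * 1) 0 := (hasDerivAt_id (0 : ℂ)).const_mul _
    have h3 : HasDerivAt f 1 (u⁻¹ * 0) := by
      rw [mul_zero]
      have := (hf.1.differentiableAt (isOpen_ball.mem_nhds (mem_ball_self (x := (0 : ℂ)) one_pos))).hasDerivAt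
      rwa [hf.2.2.2.1] at this
    have h4 := (HasDerivAt.comp (0 : ℂ) h3 h2).const_mul u
    have h5 : HasDerivAt (fun z => u * f (u⁻¹ * z)) (u * (1 * (u⁻¹ * 1))) 0 := h4
    rw [h5.deriv, mul_one, one_mul, mul_inv_cancel₀ hu0]
  · rw [himg]
    exact hf.2.2.2.2.linear_preimage (LinearMap.mulLeft ℝ u⁻¹)

lemma rot_area {f : ℂ → ℂ} (hf : f ∈ Sc) {u : ℂ} (hu : ‖u‖ = 1) (r : ℝ) :
    omittedArea (fun z => u * f (u⁻¹ * z)) r = omittedArea f r := by
  rw [omittedArea, omittedArea, (rot_Sc hf hu).2]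
  have hui : ‖u⁻¹‖ = 1 := by rw [norm_inv, hu, inv_one]
  have h := (mp_rot hui).measure_preimage (s := ball (0 : ℂ) r \ f '' ball 0 1)
    (measurableSet_ball.diff (Sc_open hf).measurableSet).nullMeasurableSet
  rw [← h]
  congr 1
  ext w
  show (w ∈ ball (0 : ℂ) r ∧ ¬ (u⁻¹ * w ∈ f '' ball 0 1)) ↔
    (u⁻¹ * w ∈ ball (0 : ℂ) r ∧ ¬ (u⁻¹ * w ∈ f '' ball 0 1))
  rw [mem_ball_zero_iff, mem_ball_zero_iff, norm_mul, hui, one_mul]

lemma half_plane_c {f : ℂ → ℂ} (hf : f ∈ Sc) {c : ℝ} (hD : f '' ball 0 1 = {w : ℂ | c < w.re}) :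
    c ≤ -1 / 2 := by
  have h0 := Sc_zero_mem hf
  rw [hD] at h0
  have hc : c < 0 := h0
  have hne : ∀ w : ℂ, c < w.re → w - 2 * c ≠ 0 := by
    intro w hw h
    have := congrArg Complex.re h
    simp at this
    linarith
  have h := schwarz_into hf (G := fun w => w / (w - 2 * c)) ?_ ?_ (by simp)
  · have h1 : HasDerivAt (fun w : ℂ => w / (w - 2 * c)) ((1 * (0 - 2 * c) - 0 * 1) / (0 - 2 * c) ^ 2) 0 :=
      (hasDerivAt_id (0 : ℂ)).div ((hasDerivAt_id (0 : ℂ)).sub_const _) (hne 0 (by simpa using hc))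
    have hcC : (c : ℂ) ≠ 0 := by exact_mod_cast hc.ne
    have e : ((1 * (0 - 2 * c) - 0 * 1) / (0 - 2 * c) ^ 2 : ℂ) = ((1 / (-2 * c) : ℝ) : ℂ) := by
      push_cast
      field_simp
      ring
    rw [e] at h1
    rw [h1.deriv, Complex.norm_real, Real.norm_of_nonneg (by apply div_nonneg <;> linarith),
      div_le_one (by linarith)] at h
    linarith
  · rw [hD]
    intro w hw
    apply DifferentiableAt.differentiableWithinAt
    have := hne w hw
    fun_prop (disch := exact this)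
  · rw [hD]
    intro w hw
    have hw' : c < w.re := hw
    rw [mem_ball_zero_iff, norm_div, div_lt_one (norm_pos_iff.mpr (hne w hw))]
    rw [← sq_lt_sq₀ (norm_nonneg _) (norm_nonneg _), Complex.sq_norm, Complex.sq_norm, Complex.normSq_apply,
      Complex.normSq_apply]
    have e1 : (w - 2 * (c : ℂ)).re = w.re - 2 * c := by simp
    have e2 : (w - 2 * (c : ℂ)).im = w.im := by simp
    rw [e1, e2]
    nlinarith

lemma not_half_plane {r : ℝ} (hr : 99 / 100 ≤ r) {D : Set ℂ} (hD : IsExtremalDomainA r D) :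
    ¬ IsHalfPlane D := by
  rintro ⟨u, hu, c, hDc⟩
  obtain ⟨f, hf, hDf, hfe⟩ := hD
  obtain ⟨hg, himg⟩ := rot_Sc hf hu
  have hu0 : u ≠ 0 := by
    intro h; rw [h, norm_zero] at hu; exact zero_ne_one hu
  rw [← hDf, hDc] at himg
  have himg' : (fun z => u * f (u⁻¹ * z)) '' ball 0 1 = {w : ℂ | c < w.re} := by
    rw [himg]
    ext w
    show c < (u * (u⁻¹ * w)).re ↔ c < w.re
    rw [mul_inv_cancel_left₀ hu0]
  have hc := half_plane_c hg himg'
  rw [← rot_area hf hu, omittedArea, himg'] at hfe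
  have h1 : volume (ball (0 : ℂ) r \ {w : ℂ | c < w.re}) ≤ volume (Hs r) := by
    refine le_trans (measure_mono ?_) (volume_cap r)
    rintro w ⟨hw1, hw2⟩
    refine ⟨hw1, ?_⟩
    have : w.re ≤ c := not_lt.mp hw2
    linarith
  exact absurd hfe (ne_of_lt (lt_of_le_of_lt h1 (half_plane_lt (by linarith))))

lemma not_sector {r : ℝ} (hr : 99 / 100 ≤ r) (hr1 : r < 1) {D : Set ℂ} (hD : IsExtremalDomainA r D) :
    ¬ IsSymmetricSector D := by
  rintro ⟨u, hu, x, m, hm, hDc⟩
  obtain ⟨f, hf, hDf, hfe⟩ := hD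
  obtain ⟨hg, himg⟩ := rot_Sc hf hu
  have hu0 : u ≠ 0 := by
    intro h; rw [h, norm_zero] at hu; exact zero_ne_one hu
  rw [← hDf, hDc] at himg
  have himg' : (fun z => u * f (u⁻¹ * z)) '' ball 0 1 = Sector m (-x) := by
    rw [himg]
    ext w
    show |(u * (u⁻¹ * w)).im| < m * ((u * (u⁻¹ * w)).re - x) ↔ |w.im| < m * (w.re + -x)
    rw [mul_inv_cancel_left₀ hu0, sub_eq_add_neg]
  have h0 := Sc_zero_mem hg
  rw [himg'] at h0
  have h0' : |(0 : ℂ).im| < m * ((0 : ℂ).re + -x) := h0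
  rw [Complex.zero_im, Complex.zero_re, abs_zero, zero_add] at h0'
  have hx : 0 < -x := (mul_pos_iff_of_pos_left hm).mp h0'
  set d := -x with hd
  have hpi := Real.pi_pos
  set β := Real.arctan m / (Real.pi / 2) with hβdef
  have hα0 : 0 < Real.arctan m := Real.arctan_pos.mpr hm
  have hα1 : Real.arctan m < Real.pi / 2 := Real.arctan_lt_pi_div_two m
  have hβ : 0 < β := by rw [hβdef]; positivity
  have hβ1 : β < 1 := by rw [hβdef, div_lt_one (by positivity)]; exact hα1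
  have htan : Real.tan (β * (Real.pi / 2)) = m := by
    rw [hβdef, div_mul_cancel₀ _ (by positivity), Real.tan_arctan]
  have hβd : 1 ≤ 2 * β * d := by
    apply sector_d_ge hβ hβ1 hx hg
    rw [htan]; exact himg'
  rw [← rot_area hf hu, omittedArea, himg'] at hfe
  rcases lt_or_ge d r with h | h
  · have := sector_inside hβ hβ1 hx h hr1.le hβd
    rw [htan, hfe] at this
    exact lt_irrefl _ this
  · have := sector_outside hβ hβ1 h hr hr1 hβd
    rw [htan, hfe] at this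
    exact lt_irrefl _ this

lemma not_arcTangent {r : ℝ} (hr : 99 / 100 ≤ r) {D : Set ℂ} (hD : IsExtremalDomainA r D) :
    ¬ IsArcTangentDomain r D := by
  rintro ⟨hDo, _, a, b, ha, hb, hfr⟩
  obtain ⟨f, hf, hDf, hfe⟩ := hD
  have hr0 : 0 < r := by linarith
  have h0 : (0 : ℂ) ∈ D := by rw [hDf]; exact Sc_zero_mem hf
  have htan : ∀ c w : ℂ, ‖c‖ = r → w ∈ TangentLine r c → r ≤ ‖w‖ := by
    intro c w hc hw
    have h1 : ((starRingEnd ℂ) c * w).re = r ^ 2 := hw
    have h2 : ((starRingEnd ℂ) c * w).re ≤ ‖(starRingEnd ℂ) c * w‖ := Complex.re_le_norm _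
    rw [norm_mul, RCLike.norm_conj, hc, h1] at h2
    have h3 : r * r ≤ r * ‖w‖ := by rw [← sq]; exact h2
    exact le_of_mul_le_mul_left h3 hr0
  have hsub : ball (0 : ℂ) r ⊆ D ∪ (closure D)ᶜ := by
    intro w hw
    by_contra hcon
    have h1 : w ∉ D := fun h => hcon (Or.inl h)
    have h2 : w ∈ closure D := by
      by_contra h; exact hcon (Or.inr h)
    have h3 : w ∈ frontier D := by
      rw [hDo.frontier_eq]; exact ⟨h2, h1⟩
    rw [mem_ball_zero_iff] at hw
    rcases hfr h3 with (h | h) | h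
    · rw [mem_sphere_zero_iff_norm] at h; linarith
    · linarith [htan a w ha h]
    · linarith [htan b w hb h]
  have hball : ball (0 : ℂ) r ⊆ D := by
    apply IsPreconnected.subset_left_of_subset_union hDo isClosed_closure.isOpen_compl _ hsub
      ⟨0, mem_ball_self hr0, h0⟩ (convex_ball _ _).isPreconnected
    rw [Set.disjoint_left]
    intro w hw hw'
    exact hw' (subset_closure hw)
  rw [omittedArea, ← hDf, sdiff_eq_empty.mpr hball, measure_empty] at hfe
  have := half_plane_lt (r := r) (by linarith)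
  rw [← hfe] at this
  exact not_lt_bot this

/-- For every `r` in `[99/100, 1)` there is an extremal domain for `A^c(r)`, and no extremal
domain for `A^c(r)` is a half-plane, a symmetric sector, or of type (iii). -/
theorem result : ∀ r : ℝ, 99 / 100 ≤ r → r < 1 →
    (∃ D, IsExtremalDomainA r D) ∧
    ∀ D, IsExtremalDomainA r D →
      ¬ IsHalfPlane D ∧ ¬ IsSymmetricSector D ∧ ¬ IsArcTangentDomain r D := by
  intro r hr hr1
  refine ⟨?_, fun D hD => ⟨not_half_plane hr hD, not_sector hr hr1 hD, not_arcTangent hr hD⟩⟩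
  obtain ⟨f, hf, hfe⟩ := exists_extremal r
  exact ⟨_, f, hf, rfl, hfe⟩

end Pool.Agent.Results.MP_a0a602_an.OmittedArea
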